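import Mathlib

set_option autoImplicit false

namespace Pool.Agent.Lib.MP_7c15de_co

open MvPolynomial Finset

/-- Two polynomials of total degree at most `d` with the same part of degree `d`. -/
structure TopEq {σ : Type} (d : ℕ) (P Q : MvPolynomial σ ℤ) : Prop where
  degP : P.totalDegree ≤ d
  degQ : Q.totalDegree ≤ d
  top : ∀ t : σ →₀ ℕ, t.degree = d → coeff t P = coeff t Q

theorem coeff_zero_of_deg {σ : Type} {d : ℕ} {P : MvPolynomial σ ℤ} (h : P.totalDegree ≤ d)
    {t : σ →₀ ℕ} (ht : d < t.degree) : coeff t P = 0 := by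
  apply coeff_eq_zero_of_totalDegree_lt
  rw [Finsupp.degree_apply] at ht
  exact lt_of_le_of_lt h ht

theorem TopEq.mul {σ : Type} {d d' : ℕ} {P Q P' Q' : MvPolynomial σ ℤ}
    (h : TopEq d P Q) (h' : TopEq d' P' Q') : TopEq (d + d') (P * P') (Q * Q') := by
  classical
  refine ⟨(totalDegree_mul _ _).trans (add_le_add h.degP h'.degP),
    (totalDegree_mul _ _).trans (add_le_add h.degQ h'.degQ), ?_⟩
  intro t ht
  rw [coeff_mul, coeff_mul]
  apply Finset.sum_congr rfl
  rintro ⟨a, b⟩ hab
  rw [Finset.HasAntidiagonal.mem_antidiagonal] at hab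
  have hdeg : a.degree + b.degree = d + d' := by
    rw [← ht, ← hab, map_add]
  simp only
  rcases lt_trichotomy a.degree d with h1 | h1 | h1
  · have h2 : d' < b.degree := by omega
    rw [coeff_zero_of_deg h'.degP h2, coeff_zero_of_deg h'.degQ h2]
    simp
  · have h2 : b.degree = d' := by omega
    rw [h.top a h1, h'.top b h2]
  · rw [coeff_zero_of_deg h.degP h1, coeff_zero_of_deg h.degQ h1]
    simp

theorem TopEq.one {σ : Type} : TopEq 0 (1 : MvPolynomial σ ℤ) 1 :=
  ⟨by simp, by simp, fun _ _ => rfl⟩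

theorem TopEq.prod {σ ι : Type} [DecidableEq ι] (s : Finset ι) (d : ι → ℕ)
    (P Q : ι → MvPolynomial σ ℤ) (h : ∀ i ∈ s, TopEq (d i) (P i) (Q i)) :
    TopEq (∑ i ∈ s, d i) (∏ i ∈ s, P i) (∏ i ∈ s, Q i) := by
  induction s using Finset.induction_on with
  | empty => simpa using TopEq.one
  | insert a s ha ih =>
    rw [Finset.sum_insert ha, Finset.prod_insert ha, Finset.prod_insert ha]
    exact (h a (Finset.mem_insert_self a s)).mul
      (ih (fun i hi => h i (Finset.mem_insert_of_mem hi)))

/-- `X j - X i` squared has the same top part as `(X j - X i) * (X j - X i + C e)`. -/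
theorem topEq_lin {σ : Type} (i j : σ) (e : ℤ) :
    TopEq 2 ((X j - X i) * (X j - X i + C e) : MvPolynomial σ ℤ)
      ((X j - X i) * (X j - X i)) := by
  classical
  have h1 : (X j - X i : MvPolynomial σ ℤ).totalDegree ≤ 1 := by
    refine (totalDegree_sub _ _).trans ?_
    simp
  have h2 : (X j - X i + C e : MvPolynomial σ ℤ).totalDegree ≤ 1 := by
    refine (totalDegree_add _ _).trans ?_
    simp only [totalDegree_C, zero_le, sup_of_le_left]
    exact h1
  have h3 : TopEq 1 (X j - X i + C e : MvPolynomial σ ℤ) (X j - X i) := by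
    refine ⟨h2, h1, ?_⟩
    intro t ht
    rw [coeff_add, coeff_C]
    have : ¬ (0 = t) := by
      rintro rfl
      simp at ht
    simp [this]
  exact (TopEq.mul (⟨h1, h1, fun _ _ => rfl⟩ : TopEq 1 (X j - X i : MvPolynomial σ ℤ) _) h3)

/-- The Vandermonde polynomial. -/
noncomputable def vdm (p : ℕ) : MvPolynomial (Fin p) ℤ :=
  ∏ i : Fin p, ∏ j ∈ Ioi i, (X j - X i)

theorem prod_X_pow {p : ℕ} (s : Equiv.Perm (Fin p)) (a : Fin p → ℕ) :
    (∏ i : Fin p, (X (s i) : MvPolynomial (Fin p) ℤ) ^ (a i)) =
      monomial (Finsupp.equivFunOnFinite.symm (fun j => a (s.symm j))) (1 : ℤ) := by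
  rw [MvPolynomial.monomial_eq]
  simp only [map_one, one_mul]
  rw [Finsupp.prod_fintype _ _ (by simp)]
  simp only [Finsupp.equivFunOnFinite_symm_apply_apply]
  rw [← Equiv.prod_comp s (fun j => (X j : MvPolynomial (Fin p) ℤ) ^ a (s.symm j))]
  simp

theorem vdm_eq (p : ℕ) : vdm p =
    ∑ s : Equiv.Perm (Fin p), (Equiv.Perm.sign s : ℤ) •
      monomial (Finsupp.equivFunOnFinite.symm (fun j => ((s.symm j : Fin p) : ℕ))) (1 : ℤ) := by
  unfold vdm
  rw [← Matrix.det_vandermonde, Matrix.det_apply]
  apply Finset.sum_congr rfl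
  intro s _
  simp only [Matrix.vandermonde_apply]
  rw [prod_X_pow s (fun i => (i : ℕ))]
  rfl

/-- The exponent `(p - 1, …, p - 1)`. -/
noncomputable def topExp (p : ℕ) : Fin p →₀ ℕ := Finsupp.equivFunOnFinite.symm (fun _ => p - 1)

theorem coeff_vdm_sq (p : ℕ) : coeff (topExp p) (vdm p * vdm p) ≠ 0 := by
  classical
  -- coefficient of the square
  have key : coeff (topExp p) (vdm p * vdm p) =
      ∑ s : Equiv.Perm (Fin p), (Equiv.Perm.sign (Fin.revPerm : Equiv.Perm (Fin p)) : ℤ) := by
    rw [vdm_eq, Finset.sum_mul_sum, coeff_sum]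
    apply Finset.sum_congr rfl
    intro s _
    rw [coeff_sum]
    rw [Finset.sum_eq_single (s * Fin.revPerm)]
    · simp only [smul_mul_smul_comm, monomial_mul, mul_one, coeff_smul, coeff_monomial]
      rw [if_pos]
      · rw [Equiv.Perm.sign_mul]
        simp only [smul_eq_mul, mul_one, Units.val_mul]
        rw [← mul_assoc]
        have : ((Equiv.Perm.sign s : ℤˣ) : ℤ) * ((Equiv.Perm.sign s : ℤˣ) : ℤ) = 1 := by
          rw [← Units.val_mul, Int.units_mul_self, Units.val_one]
        rw [this, one_mul]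
      · ext j
        simp only [topExp, Finsupp.coe_add, Pi.add_apply, Finsupp.equivFunOnFinite_symm_apply_apply]
        have : (Equiv.symm (s * Fin.revPerm) : Equiv.Perm (Fin p)) j = Fin.rev (s.symm j) := by
          rw [Equiv.symm_apply_eq]
          simp
        rw [this, Fin.val_rev]
        have := (s.symm j).isLt
        omega
    · intro t _ ht
      simp only [smul_mul_smul_comm, monomial_mul, mul_one, coeff_smul, coeff_monomial]
      rw [if_neg]
      · simp
      · intro h
        apply ht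
        have h' : ∀ j, ((s.symm j : Fin p) : ℕ) + ((t.symm j : Fin p) : ℕ) = p - 1 := by
          intro j
          have := DFunLike.congr_fun h j
          simpa [topExp] using this
        ext i
        have h1 := h' (t i)
        simp only [Equiv.symm_apply_apply] at h1
        have : s.symm (t i) = Fin.rev i := by
          ext
          rw [Fin.val_rev]
          omega
        rw [Equiv.symm_apply_eq] at this
        rw [this]
        simp
    · simp
  rw [key]
  simp only [Finset.sum_const, Finset.card_univ, nsmul_eq_mul]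
  refine mul_ne_zero ?_ ?_
  · exact_mod_cast Fintype.card_ne_zero
  · exact Units.ne_zero _

/-- Choice lemma, from the Combinatorial Nullstellensatz: `p` integers from sets of size at
least `p`, pairwise different and with pairwise differences avoiding prescribed values. -/
theorem cn_exists (p : ℕ) (S : Fin p → Finset ℤ) (hS : ∀ i, p ≤ (S i).card)
    (e : Fin p → Fin p → ℤ) :
    ∃ x : Fin p → ℤ, (∀ i, x i ∈ S i) ∧ ∀ i j, i < j → x j - x i ≠ 0 ∧ x j - x i ≠ e i j := by
  classical
  have hT : TopEq (∑ i : Fin p, ∑ j ∈ Ioi i, 2)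
      (∏ i : Fin p, ∏ j ∈ Ioi i, ((X j - X i) * (X j - X i + C (-(e i j)))
        : MvPolynomial (Fin p) ℤ))
      (∏ i : Fin p, ∏ j ∈ Ioi i, ((X j - X i) * (X j - X i))) := by
    apply TopEq.prod
    intro i _
    apply TopEq.prod
    intro j _
    exact topEq_lin i j _
  have hsq : (∏ i : Fin p, ∏ j ∈ Ioi i, ((X j - X i) * (X j - X i) : MvPolynomial (Fin p) ℤ))
      = vdm p * vdm p := by
    unfold vdm
    rw [← Finset.prod_mul_distrib]
    apply Finset.prod_congr rfl
    intro i _
    rw [← Finset.prod_mul_distrib]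
  rw [hsq] at hT
  have hdeg : (topExp p).degree = ∑ i : Fin p, ∑ j ∈ Ioi i, 2 := by
    rw [Finsupp.degree_eq_sum]
    simp only [topExp, Finsupp.equivFunOnFinite_symm_apply_apply, Finset.sum_const,
      Finset.card_univ, Fintype.card_fin, smul_eq_mul, Fin.card_Ioi]
    rw [Fin.sum_univ_eq_sum_range (fun i => (p - 1 - i) * 2) p, Finset.sum_range_reflect
      (fun i => i * 2) p, ← Finset.sum_mul, Finset.sum_range_id_mul_two]
  set f : MvPolynomial (Fin p) ℤ :=
    ∏ i : Fin p, ∏ j ∈ Ioi i, ((X j - X i) * (X j - X i + C (-(e i j)))) with hf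
  have hcoef : coeff (topExp p) f ≠ 0 := by
    rw [hT.top _ hdeg]
    exact coeff_vdm_sq p
  have htd : f.totalDegree = (topExp p).degree := by
    apply le_antisymm
    · rw [hdeg]
      exact hT.degP
    · rw [Finsupp.degree_apply]
      exact le_totalDegree (mem_support_iff.mpr hcoef)
  by_cases hp : p = 0
  · subst hp
    exact ⟨fun i => i.elim0, fun i => i.elim0, fun i => i.elim0⟩
  obtain ⟨x, hx, hne⟩ := combinatorial_nullstellensatz_exists_eval_nonzero f (topExp p) hcoef
    htd S (fun i => by
      have := hS i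
      simp only [topExp, Finsupp.equivFunOnFinite_symm_apply_apply]
      omega)
  refine ⟨x, hx, ?_⟩
  intro i j hij
  rw [hf] at hne
  simp only [map_prod, map_mul, map_sub, map_add, eval_X, eval_C] at hne
  rw [Finset.prod_ne_zero_iff] at hne
  have h1 := hne i (Finset.mem_univ i)
  rw [Finset.prod_ne_zero_iff] at h1
  have h2 := h1 j (Finset.mem_Ioi.mpr hij)
  rw [mul_ne_zero_iff] at h2
  refine ⟨h2.1, ?_⟩
  intro h3
  apply h2.2
  rw [h3]
  ring

end Pool.Agent.Lib.MP_7c15de_co
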