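import Mathlib
import Pool.Agent.Lib.MP_7c15de_co.CN

set_option autoImplicit false

namespace Pool.Agent.Lib.MP_7c15de_co

open Finset

/-- Local lemma (a strengthening of the Kezdy-Snevily lemma): if `2 p < N` then `p` elements
`v i` of `ZMod N` can be given distinct labels from `p + 1` consecutive labels such that the
sums `label + v i` are distinct and avoid a prescribed value. -/
theorem loc (N p : ℕ) [NeZero N] (hN : 2 * p < N) (c z : ZMod N) (v : Fin p → ZMod N) :
    ∃ φ : Fin p → ℕ, (∀ i, φ i ≤ p) ∧ Function.Injective φ ∧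
      Function.Injective (fun i => c + (φ i : ZMod N) + v i) ∧
      ∀ i, c + (φ i : ZMod N) + v i ≠ z := by
  classical
  let S : Fin p → Finset ℤ := fun i =>
    (Finset.Icc (0 : ℤ) p).filter (fun x : ℤ => c + (x : ZMod N) + v i ≠ z)
  have hinj : ∀ x ∈ Finset.Icc (0 : ℤ) p, ∀ y ∈ Finset.Icc (0 : ℤ) p,
      ((x : ZMod N) = (y : ZMod N)) → x = y := by
    intro x hx y hy h
    rw [Finset.mem_Icc] at hx hy
    rw [ZMod.intCast_eq_intCast_iff] at h
    have h1 := h.symm.dvd
    obtain ⟨q, hq⟩ := h1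
    have hq0 : q = 0 := by
      by_contra hne
      have : (N : ℤ) ≤ |(N : ℤ) * q| := by
        rw [abs_mul]
        have h2 : 1 ≤ |q| := Int.one_le_abs hne
        have h3 : (0 : ℤ) ≤ N := by positivity
        rw [abs_of_nonneg h3]
        nlinarith
      rw [← hq] at this
      have h4 : |x - y| ≤ p := by
        rw [abs_le]
        constructor <;> omega
      omega
    rw [hq0] at hq
    omega
  have hS : ∀ i, p ≤ (S i).card := by
    intro i
    have h1 : ((Finset.Icc (0 : ℤ) p).filter (fun x : ℤ => ¬ (c + (x : ZMod N) + v i ≠ z))).card ≤ 1 := by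
      rw [Finset.card_le_one]
      intro x hx y hy
      rw [Finset.mem_filter] at hx hy
      apply hinj x hx.1 y hy.1
      have h2 := not_not.mp hx.2
      have h3 := not_not.mp hy.2
      have h4 : c + (x : ZMod N) + v i = c + (y : ZMod N) + v i := h2.trans h3.symm
      exact add_left_cancel (add_right_cancel h4)
    have h2 := Finset.card_filter_add_card_filter_not (s := Finset.Icc (0 : ℤ) p)
      (fun x : ℤ => c + (x : ZMod N) + v i ≠ z)
    have h3 : (Finset.Icc (0 : ℤ) p).card = p + 1 := by simp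
    show p ≤ ((Finset.Icc (0 : ℤ) p).filter (fun x : ℤ => c + (x : ZMod N) + v i ≠ z)).card
    omega
  obtain ⟨x, hx, hd⟩ := cn_exists p S hS (fun i j => (v i - v j).valMinAbs)
  have hx' : ∀ i, 0 ≤ x i ∧ x i ≤ p ∧ c + (x i : ZMod N) + v i ≠ z := by
    intro i
    have h1 := hx i
    simp only [S, Finset.mem_filter, Finset.mem_Icc] at h1
    exact ⟨h1.1.1, h1.1.2, h1.2⟩
  have hcast : ∀ i, (((x i).toNat : ℕ) : ZMod N) = (x i : ZMod N) := by
    intro i
    have : (((x i).toNat : ℕ) : ℤ) = x i := Int.toNat_of_nonneg (hx' i).1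
    rw [← Int.cast_natCast, this]
  have hlt : ∀ i j, i < j → c + (x i : ZMod N) + v i ≠ c + (x j : ZMod N) + v j := by
    intro i j hij h
    have h1 : ((x j - x i : ℤ) : ZMod N) = v i - v j := by
      push_cast
      linear_combination (-1 : ZMod N) * h
    have h2 : (v i - v j).valMinAbs = x j - x i := by
      rw [ZMod.valMinAbs_spec]
      refine ⟨h1.symm, ?_⟩
      have a1 := hx' i
      have a2 := hx' j
      constructor
      · omega
      · omega
    exact (hd i j hij).2 h2.symm
  refine ⟨fun i => (x i).toNat, ?_, ?_, ?_, ?_⟩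
  · intro i
    have := hx' i
    simp only
    omega
  · intro i j hij
    by_contra hne
    have a1 := hx' i
    have a2 := hx' j
    have h3 : x i = x j := by
      simp only at hij
      omega
    rcases lt_or_gt_of_ne hne with h | h
    · exact (hd i j h).1 (by omega)
    · exact (hd j i h).1 (by omega)
  · intro i j hij
    by_contra hne
    simp only [hcast] at hij
    rcases lt_or_gt_of_ne hne with h | h
    · exact hlt i j h hij
    · exact hlt j i h hij.symm
  · intro i
    rw [hcast]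
    exact (hx' i).2.2

/-- Block lemma, with residues written as integers. -/
theorem block {V : Type} [DecidableEq V] (N d p : ℕ) (h2 : 2 ≤ d) (hN : N = d + p)
    (hp : p + 2 ≤ d) (P : Finset V) (hP : P.card = p) (u0 : ℤ) (v : V → ℤ) :
    ∃ (ρ : ℤ) (a : V → ℤ),
      (∀ i : ℕ, i + 1 < d → ¬ ρ ≡ u0 + i [ZMOD N]) ∧
      (∀ r ∈ P, ¬ a r ≡ 0 [ZMOD N]) ∧
      (∀ r ∈ P, ∀ r' ∈ P, a r ≡ a r' [ZMOD N] → r = r') ∧
      (∀ r ∈ P, ∀ r' ∈ P, a r - v r ≡ a r' - v r' [ZMOD N] → r = r') ∧
      (∀ r ∈ P, ∀ i : ℕ, i + 1 < d → ¬ a r - v r ≡ -(u0 + i) [ZMOD N]) ∧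
      (∀ r ∈ P, ¬ a r - v r ≡ -ρ [ZMOD N]) := by
  classical
  have : NeZero N := ⟨by omega⟩
  let e : P ≃ Fin p := P.equivFin.trans (finCongr hP)
  obtain ⟨φ, hφ1, hφ2, hφ3, hφ4⟩ := loc N p (by omega) (((-u0 + 1 : ℤ)) : ZMod N) 0
    (fun i => ((v (e.symm i) : ℤ) : ZMod N))
  -- the label left over
  have hex : ∃ j ∈ Finset.range (p + 1), j ∉ Finset.univ.image φ := by
    by_contra hcon
    push Not at hcon
    have h1 : (Finset.range (p + 1)) ⊆ Finset.univ.image φ := fun j hj => hcon j hj
    have h3 := Finset.card_le_card h1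
    have h4 : (Finset.univ.image φ).card ≤ p := by
      refine Finset.card_image_le.trans ?_
      simp
    rw [Finset.card_range] at h3
    omega
  obtain ⟨j, hj, hjφ⟩ := hex
  rw [Finset.mem_range] at hj
  have hjφ' : ∀ i, φ i ≠ j := by
    intro i hi
    exact hjφ (Finset.mem_image.mpr ⟨i, Finset.mem_univ i, hi⟩)
  let idx : V → ℕ := fun r => if h : r ∈ P then φ (e ⟨r, h⟩) else 0
  have hidx : ∀ r (h : r ∈ P), idx r = φ (e ⟨r, h⟩) := fun r h => dif_pos h
  let a : V → ℤ := fun r => -u0 + 1 + idx r + v r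
  -- small integers congruent mod N are equal
  have hsmall : ∀ s t : ℤ, |s - t| < N → s ≡ t [ZMOD N] → s = t := by
    intro s t hst h
    obtain ⟨q, hq⟩ := h.symm.dvd
    have hq0 : q = 0 := by
      by_contra hne
      have : (N : ℤ) ≤ |(N : ℤ) * q| := by
        rw [abs_mul]
        have h2 : 1 ≤ |q| := Int.one_le_abs hne
        have h3 : (0 : ℤ) ≤ N := by positivity
        rw [abs_of_nonneg h3]
        nlinarith
      rw [← hq] at this
      omega
    rw [hq0] at hq
    omega
  have hacast : ∀ r (h : r ∈ P), ((a r : ℤ) : ZMod N) =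
      (((-u0 + 1 : ℤ)) : ZMod N) + (φ (e ⟨r, h⟩) : ZMod N)
        + ((v (e.symm (e ⟨r, h⟩)) : ℤ) : ZMod N) := by
    intro r h
    simp only [a, hidx r h, Equiv.symm_apply_apply]
    push_cast
    ring
  refine ⟨u0 - 1 - j, a, ?_, ?_, ?_, ?_, ?_, ?_⟩
  · intro i hi h
    have h1 : ((-1 : ℤ) - j) ≡ i [ZMOD N] := by
      have := h.sub_right u0
      have e1 : u0 - 1 - (j : ℤ) - u0 = -1 - j := by ring
      have e2 : u0 + (i : ℤ) - u0 = i := by ring
      rwa [e1, e2] at this
    have h3 := hsmall _ _ (by rw [abs_lt]; constructor <;> omega) h1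
    omega
  · intro r hr h
    have := hφ4 (e ⟨r, hr⟩)
    apply this
    rw [← hacast r hr]
    rw [← ZMod.intCast_eq_intCast_iff] at h
    simpa using h
  · intro r hr r' hr' h
    rw [← ZMod.intCast_eq_intCast_iff, hacast r hr, hacast r' hr'] at h
    have h1 := hφ3 h
    have h3 := e.injective h1
    exact congrArg Subtype.val h3
  · intro r hr r' hr' h
    have h1 : (idx r : ℤ) ≡ idx r' [ZMOD N] := by
      have := h.sub_right (-u0 + 1)
      have e1 : a r - v r - (-u0 + 1) = idx r := by simp only [a]; ring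
      have e2 : a r' - v r' - (-u0 + 1) = idx r' := by simp only [a]; ring
      rwa [e1, e2] at this
    have b1 := hφ1 (e ⟨r, hr⟩)
    have b2 := hφ1 (e ⟨r', hr'⟩)
    rw [hidx r hr, hidx r' hr'] at h1
    have h3 := hsmall _ _ (by rw [abs_lt]; constructor <;> omega) h1
    have h4 : φ (e ⟨r, hr⟩) = φ (e ⟨r', hr'⟩) := by exact_mod_cast h3
    have h5 := e.injective (hφ2 h4)
    exact congrArg Subtype.val h5
  · intro r hr i hi h
    have h1 : (1 + idx r : ℤ) ≡ -i [ZMOD N] := by
      have := h.add_right u0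
      have e1 : a r - v r + u0 = 1 + idx r := by simp only [a]; ring
      have e2 : -(u0 + (i : ℤ)) + u0 = -i := by ring
      rwa [e1, e2] at this
    have b1 := hφ1 (e ⟨r, hr⟩)
    rw [hidx r hr] at h1
    have h3 := hsmall _ _ (by rw [abs_lt]; constructor <;> omega) h1
    omega
  · intro r hr h
    have h1 : (idx r : ℤ) ≡ j [ZMOD N] := by
      have := h.sub_right (-u0 + 1)
      have e1 : a r - v r - (-u0 + 1) = idx r := by simp only [a]; ring
      have e2 : -(u0 - 1 - (j : ℤ)) - (-u0 + 1) = j := by ring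
      rwa [e1, e2] at this
    have b1 := hφ1 (e ⟨r, hr⟩)
    rw [hidx r hr] at h1
    have h3 := hsmall _ _ (by rw [abs_lt]; constructor <;> omega) h1
    exact hjφ' _ (by exact_mod_cast h3)

end Pool.Agent.Lib.MP_7c15de_co
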