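import Mathlib

set_option autoImplicit false

namespace Pool.Agent.Lib.MP_7c15de_co

/-- `T` decomposes `G`: there is a family of embedded copies of `T` inside `G` such that every
edge of `G` lies in exactly one copy. -/
def Decomposes {V W : Type} (T : SimpleGraph V) (G : SimpleGraph W) : Prop :=
  ∃ (ι : Type) (f : ι → (V ↪ W)),
    (∀ i, T.map (f i) ≤ G) ∧ ∀ e ∈ G.edgeSet, ∃! i, e ∈ (T.map (f i)).edgeSet

/-- `T` is a tree whose two colour classes both have exactly `n` vertices. -/
def IsBalancedTree {V : Type} [Fintype V] (n : ℕ) (T : SimpleGraph V) : Prop :=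
  T.IsTree ∧ ∃ c : V → Bool, (∀ u v, T.Adj u v → c u ≠ c v) ∧
    Fintype.card {v // c v = true} = n ∧ Fintype.card {v // c v = false} = n

/-- The set `S(n)` of the positive integers `k` such that every tree with two colour classes of
size `n` decomposes the complete bipartite graph `K_{2n-1,k}`. -/
def S (n : ℕ) : Set ℕ :=
  {k | 0 < k ∧ ∀ (V : Type) [Fintype V] (T : SimpleGraph V), IsBalancedTree n T →
    Decomposes T (completeBipartiteGraph (Fin (2 * n - 1)) (Fin k))}

/-- The least element of `S(n)` (and `0` if `S(n)` is empty). -/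
noncomputable def kmin (n : ℕ) : ℕ := sInf (S n)

/-- `k` is 2-dense: every divisor `d < k` of `k` is followed by a divisor that is at most `2 d`. -/
def TwoDense (k : ℕ) : Prop :=
  0 < k ∧ ∀ d, d ∣ k → d < k → ∃ e, e ∣ k ∧ d < e ∧ e ≤ 2 * d

end Pool.Agent.Lib.MP_7c15de_co
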