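import Mathlib
import Pool.Agent.Lib.MP_7c15de_co.Defs

set_option autoImplicit false

namespace Pool.Agent.Lib.MP_7c15de_co

open Finset

/-- Number of edges of a tree, counted at one colour class. -/
theorem sum_deg_class {V : Type} [Fintype V] [DecidableEq V] (T : SimpleGraph V)
    [DecidableRel T.Adj] (hT : T.IsTree)
    (X : Finset V) (hbip : ∀ a b, T.Adj a b → (a ∈ X ↔ b ∉ X)) :
    ∑ x ∈ X, T.degree x + 1 = Fintype.card V := by
  classical
  have h1 : T.IsBipartiteWith (X : Set V) ((Xᶜ : Finset V) : Set V) := by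
    refine ⟨?_, ?_⟩
    · rw [Finset.disjoint_coe]
      exact disjoint_compl_right
    · intro v w hvw
      have := hbip v w hvw
      simp only [Finset.mem_coe, Finset.mem_compl]
      tauto
  rw [SimpleGraph.isBipartiteWith_sum_degrees_eq_card_edges h1]
  exact hT.card_edgeFinset

theorem criterion {V : Type} [Fintype V] [DecidableEq V] (T : SimpleGraph V) (hT : T.IsTree)
    (X : Finset V) (hbip : ∀ a b, T.Adj a b → (a ∈ X ↔ b ∉ X)) (m k : ℕ)
    (hm : Fintype.card V = m + 1) (hk : 0 < k) (head : V → V) (blk : V → ℕ)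
    (hblk : ∀ x ∈ X, blk (head x) ∣ k) (a u : V → ℤ)
    (hX : ∀ x ∈ X, ∀ x' ∈ X, head x = head x' → a x ≡ a x' [ZMOD blk (head x)] → x = x')
    (hY : ∀ y ∉ X, ∀ y' ∉ X, u y ≡ u y' [ZMOD k] → y = y')
    (hL : ∀ x ∈ X, ∀ x' ∈ X, ∀ y y', T.Adj x y → T.Adj x' y' → head x = head x' →
      a x - u y ≡ a x' - u y' [ZMOD blk (head x)] → x = x' ∧ y = y')
    (hcard : ∑ h ∈ X.image head, blk h = m) :
    Decomposes T (completeBipartiteGraph (Fin m) (Fin k)) := by
  classical
  have hblk0 : ∀ x ∈ X, 0 < blk (head x) := fun x hx => Nat.pos_of_dvd_of_pos (hblk x hx) hk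
  let L : Finset (Σ _ : V, ℕ) := (X.image head).sigma (fun h => Finset.range (blk h))
  have hLcard : L.card = m := by
    rw [Finset.card_sigma]
    simp only [Finset.card_range]
    exact hcard
  let eL : L ≃ Fin m := L.equivFin.trans (finCongr hLcard)
  have memL : ∀ x ∈ X, ∀ s : ℤ,
      (⟨head x, (s % (blk (head x) : ℤ)).toNat⟩ : Σ _ : V, ℕ) ∈ L := by
    intro x hx s
    simp only [L, Finset.mem_sigma, Finset.mem_image, Finset.mem_range]
    refine ⟨⟨x, hx, rfl⟩, ?_⟩
    have h0 := hblk0 x hx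
    have h1 := Int.emod_nonneg s (by omega : (blk (head x) : ℤ) ≠ 0)
    have h2 := Int.emod_lt_of_pos s (by omega : (0 : ℤ) < blk (head x))
    omega
  have memR : ∀ s : ℤ, (s % (k : ℤ)).toNat < k := by
    intro s
    have h1 := Int.emod_nonneg s (by omega : (k : ℤ) ≠ 0)
    have h2 := Int.emod_lt_of_pos s (by omega : (0 : ℤ) < k)
    omega
  -- the copies
  let F : Fin k → V → (Fin m ⊕ Fin k) := fun t v =>
    if h : v ∈ X then Sum.inl (eL ⟨_, memL v h (a v + (t : ℕ))⟩)
    else Sum.inr ⟨_, memR (u v + (t : ℕ))⟩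
  have FX : ∀ t v (h : v ∈ X), F t v = Sum.inl (eL ⟨_, memL v h (a v + (t : ℕ))⟩) :=
    fun t v h => dif_pos h
  have FY : ∀ t v (h : v ∉ X), F t v = Sum.inr ⟨_, memR (u v + (t : ℕ))⟩ :=
    fun t v h => dif_neg h
  have toNat_inj : ∀ (N : ℕ), 0 < N → ∀ s s' : ℤ,
      (s % (N : ℤ)).toNat = (s' % (N : ℤ)).toNat → s ≡ s' [ZMOD N] := by
    intro N hN s s' h
    have h1 := Int.emod_nonneg s (by omega : (N : ℤ) ≠ 0)
    have h2 := Int.emod_nonneg s' (by omega : (N : ℤ) ≠ 0)
    unfold Int.ModEq
    omega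
  have Finj : ∀ t, Function.Injective (F t) := by
    intro t v v' hvv
    by_cases h : v ∈ X <;> by_cases h' : v' ∈ X
    · rw [FX t v h, FX t v' h'] at hvv
      have h1 := eL.injective (Sum.inl_injective hvv)
      have h2 := congrArg Subtype.val h1
      simp only [Sigma.mk.injEq, heq_eq_eq] at h2
      obtain ⟨h3, h4⟩ := h2
      rw [← h3] at h4
      have h5 := toNat_inj _ (hblk0 v h) _ _ h4
      exact hX v h v' h' h3 (Int.ModEq.add_right_cancel' _ h5)
    · rw [FX t v h, FY t v' h'] at hvv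
      exact absurd hvv (by simp)
    · rw [FY t v h, FX t v' h'] at hvv
      exact absurd hvv (by simp)
    · rw [FY t v h, FY t v' h'] at hvv
      have h1 := Sum.inr_injective hvv
      have h2 := congrArg Fin.val h1
      simp only at h2
      have h5 := toNat_inj _ hk _ _ h2
      exact hY v h v' h' (Int.ModEq.add_right_cancel' _ h5)
  -- the label map is onto
  let E : Finset (V × V) := (X ×ˢ (Finset.univ : Finset V)).filter (fun q => T.Adj q.1 q.2)
  have hEcard : E.card = m := by
    have h1 : E.card = ∑ x ∈ X, T.degree x := by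
      rw [Finset.card_filter, Finset.sum_product]
      apply Finset.sum_congr rfl
      intro x _
      rw [← Finset.card_filter, SimpleGraph.degree]
      congr 1
      ext y
      simp
    have h2 := sum_deg_class T hT X hbip
    omega
  let lab : V × V → (Σ _ : V, ℕ) := fun q =>
    ⟨head q.1, ((a q.1 - u q.2) % (blk (head q.1) : ℤ)).toNat⟩
  have memE : ∀ q, q ∈ E ↔ q.1 ∈ X ∧ T.Adj q.1 q.2 := by
    intro q
    simp [E]
  have labinj : Set.InjOn lab (E : Set (V × V)) := by
    rintro ⟨x, y⟩ hq ⟨x', y'⟩ hq' h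
    rw [Finset.mem_coe, memE] at hq hq'
    simp only [lab, Sigma.mk.injEq, heq_eq_eq] at h
    obtain ⟨h3, h4⟩ := h
    rw [← h3] at h4
    have h5 := toNat_inj _ (hblk0 x hq.1) _ _ h4
    obtain ⟨h6, h7⟩ := hL x hq.1 x' hq'.1 y y' hq.2 hq'.2 h3 h5
    rw [h6, h7]
  have labimg : E.image lab = L := by
    apply Finset.eq_of_subset_of_card_le
    · intro z hz
      rw [Finset.mem_image] at hz
      obtain ⟨q, hq, rfl⟩ := hz
      rw [memE] at hq
      exact memL q.1 hq.1 _
    · rw [Finset.card_image_of_injOn labinj, hEcard, hLcard]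
  have labsurj : ∀ h ∈ X.image head, ∀ s : ℤ, ∃ x ∈ X, ∃ y, T.Adj x y ∧ head x = h ∧
      a x - u y ≡ s [ZMOD blk h] := by
    intro h hh s
    rw [Finset.mem_image] at hh
    obtain ⟨x0, hx0, rfl⟩ := hh
    have h1 := memL x0 hx0 s
    rw [← labimg, Finset.mem_image] at h1
    obtain ⟨q, hq, hq2⟩ := h1
    rw [memE] at hq
    simp only [lab, Sigma.mk.injEq, heq_eq_eq] at hq2
    obtain ⟨h3, h4⟩ := hq2
    refine ⟨q.1, hq.1, q.2, hq.2, h3, ?_⟩
    rw [h3] at h4
    exact toNat_inj _ (hblk0 x0 hx0) _ _ h4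
  refine ⟨Fin k, fun t => ⟨F t, Finj t⟩, ?_, ?_⟩
  · intro t v w hvw
    rw [SimpleGraph.map_adj] at hvw
    obtain ⟨v', w', hadj, rfl, rfl⟩ := hvw
    simp only [Function.Embedding.coeFn_mk]
    by_cases h : v' ∈ X
    · have h' := (hbip v' w' hadj).mp h
      rw [FX t v' h, FY t w' h']
      simp [completeBipartiteGraph]
    · have h' : w' ∈ X := by
        have := hbip v' w' hadj
        tauto
      rw [FY t v' h, FX t w' h']
      simp [completeBipartiteGraph]
  · -- every edge is covered exactly once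
    have key : ∀ (l : Fin m) (w : Fin k), ∃! t : Fin k,
        s(Sum.inl l, Sum.inr w) ∈ (T.map (⟨F t, Finj t⟩ : V ↪ (Fin m ⊕ Fin k))).edgeSet := by
      intro l w
      have hedge : ∀ t : Fin k, s(Sum.inl l, Sum.inr w) ∈
          (T.map (⟨F t, Finj t⟩ : V ↪ (Fin m ⊕ Fin k))).edgeSet ↔
          ∃ x y, x ∈ X ∧ y ∉ X ∧ T.Adj x y ∧ F t x = Sum.inl l ∧ F t y = Sum.inr w := by
        intro t
        rw [SimpleGraph.mem_edgeSet, SimpleGraph.map_adj]
        simp only [Function.Embedding.coeFn_mk]
        constructor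
        · rintro ⟨x, y, hadj, h1, h2⟩
          by_cases h : x ∈ X
          · exact ⟨x, y, h, (hbip x y hadj).mp h, hadj, h1, h2⟩
          · rw [FY t x h] at h1
            simp at h1
        · rintro ⟨x, y, _, _, hadj, h1, h2⟩
          exact ⟨x, y, hadj, h1, h2⟩
      -- the block and the residue of `l`
      obtain ⟨⟨h, j⟩, hmem⟩ : ∃ z : Σ _ : V, ℕ, ∃ hz : z ∈ L, eL ⟨z, hz⟩ = l := by
        refine ⟨(eL.symm l).1, (eL.symm l).2, ?_⟩
        simp
      obtain ⟨hz, hzl⟩ := hmem
      have hz' := hz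
      simp only [L, Finset.mem_sigma, Finset.mem_range] at hz'
      obtain ⟨hh, hj⟩ := hz'
      obtain ⟨x, hx, y, hadj, hhead, hmod⟩ := labsurj h hh ((j : ℤ) - (w : ℕ))
      have hy : y ∉ X := (hbip x y hadj).mp hx
      have hbk : (blk h : ℤ) ∣ k := by
        have := hblk x hx
        rw [hhead] at this
        exact_mod_cast this
      have inl_iff : ∀ (t : Fin k) (x' : V) (hx' : x' ∈ X), F t x' = Sum.inl l ↔
          (head x' = h ∧ a x' + (t : ℕ) ≡ j [ZMOD blk h]) := by
        intro t x' hx'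
        rw [FX t x' hx', ← hzl]
        simp only [Sum.inl.injEq, EmbeddingLike.apply_eq_iff_eq, Subtype.mk.injEq, Sigma.mk.injEq,
          heq_eq_eq]
        constructor
        · rintro ⟨h1, h2⟩
          refine ⟨h1, ?_⟩
          rw [h1] at h2
          have h0 : 0 < blk h := by omega
          apply toNat_inj _ h0
          rw [h2, Int.emod_eq_of_lt (by omega) (by omega)]
          omega
        · rintro ⟨h1, h2⟩
          refine ⟨h1, ?_⟩
          rw [h1]
          have h3 : (a x' + ((t : ℕ) : ℤ)) % (blk h : ℤ) = (j : ℤ) % (blk h : ℤ) := h2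
          rw [h3, Int.emod_eq_of_lt (by omega) (by omega)]
          omega
      have inr_iff : ∀ (t : Fin k) (y' : V) (hy' : y' ∉ X), F t y' = Sum.inr w ↔
          u y' + (t : ℕ) ≡ (w : ℕ) [ZMOD k] := by
        intro t y' hy'
        rw [FY t y' hy']
        simp only [Sum.inr.injEq]
        constructor
        · intro h1
          have h2 := congrArg Fin.val h1
          simp only at h2
          apply toNat_inj _ hk
          have := w.isLt
          rw [h2, Int.emod_eq_of_lt (by omega) (by omega)]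
          omega
        · intro h1
          ext
          simp only
          have h3 : (u y' + ((t : ℕ) : ℤ)) % (k : ℤ) = ((w : ℕ) : ℤ) % (k : ℤ) := h1
          have := w.isLt
          rw [h3, Int.emod_eq_of_lt (by omega) (by omega)]
          omega
      -- the copy
      refine ⟨⟨_, memR ((w : ℕ) - u y)⟩, ?_, ?_⟩
      · simp only
        rw [hedge]
        have ht : ((((⟨_, memR ((w : ℕ) - u y)⟩ : Fin k) : ℕ)) : ℤ) ≡ (w : ℕ) - u y [ZMOD k] := by
          simp only
          have h1 := Int.emod_nonneg (((w : ℕ) : ℤ) - u y) (by omega : (k : ℤ) ≠ 0)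
          rw [Int.toNat_of_nonneg h1]
          exact Int.mod_modEq _ _
        refine ⟨x, y, hx, hy, hadj, ?_, ?_⟩
        · rw [inl_iff _ x hx]
          refine ⟨hhead, ?_⟩
          have h1 := (ht.of_dvd hbk).add_left (a x)
          refine h1.trans ?_
          have h3 := hmod.add_right ((w : ℕ) : ℤ)
          have e1 : a x - u y + ((w : ℕ) : ℤ) = a x + (((w : ℕ) : ℤ) - u y) := by ring
          have e2 : (j : ℤ) - ((w : ℕ) : ℤ) + ((w : ℕ) : ℤ) = j := by ring
          rw [e1, e2] at h3
          exact h3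
        · rw [inr_iff _ y hy]
          have h1 := ht.add_left (u y)
          refine h1.trans ?_
          have e1 : u y + (((w : ℕ) : ℤ) - u y) = ((w : ℕ) : ℤ) := by ring
          rw [e1]
      · intro t ht
        rw [hedge] at ht
        obtain ⟨x', y', hx', hy', hadj', h1, h2⟩ := ht
        rw [inl_iff t x' hx'] at h1
        rw [inr_iff t y' hy'] at h2
        have h3 : a x' - u y' ≡ (j : ℤ) - ((w : ℕ) : ℤ) [ZMOD blk h] := by
          have h4 := h1.2.sub (h2.of_dvd hbk)
          have e1 : a x' + ((t : ℕ) : ℤ) - (u y' + ((t : ℕ) : ℤ)) = a x' - u y' := by ring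
          rwa [e1] at h4
        have h4 : a x' - u y' ≡ a x - u y [ZMOD blk (head x')] := by
          rw [h1.1]
          exact h3.trans hmod.symm
        obtain ⟨h5, h6⟩ := hL x' hx' x hx y' y hadj' hadj (h1.1.trans hhead.symm) h4
        subst h6
        ext
        simp only
        have h7 : ((t : ℕ) : ℤ) ≡ ((w : ℕ) : ℤ) - u y' [ZMOD k] := by
          have h8 := h2.sub_right (u y')
          have e1 : u y' + ((t : ℕ) : ℤ) - u y' = ((t : ℕ) : ℤ) := by ring
          rwa [e1] at h8
        have h9 : ((t : ℕ) : ℤ) % (k : ℤ) = (((w : ℕ) : ℤ) - u y') % (k : ℤ) := h7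
        have := t.isLt
        rw [← h9, Int.emod_eq_of_lt (by omega) (by omega)]
        omega
    intro e he
    induction e using Sym2.ind with
    | _ p q =>
      rw [SimpleGraph.mem_edgeSet] at he
      rcases p with l | w <;> rcases q with l' | w'
      · simp [completeBipartiteGraph] at he
      · exact key l w'
      · rw [Sym2.eq_swap]
        exact key l' w
      · simp [completeBipartiteGraph] at he

end Pool.Agent.Lib.MP_7c15de_co
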