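import Mathlib
import Pool.Agent.Lib.MP_7c15de_co.Defs

set_option autoImplicit false

namespace Pool.Agent.Lib.MP_7c15de_co

open Finset

/-- A graph given by a parent function is a tree. -/
theorem isTree_of_parent {V : Type} [Fintype V] [DecidableEq V] (T : SimpleGraph V) (r : V)
    (par : V → V) (rk : V → ℕ) (hrk : ∀ v, v ≠ r → rk (par v) < rk v)
    (hadj : ∀ a b, T.Adj a b ↔ (a ≠ r ∧ par a = b) ∨ (b ≠ r ∧ par b = a)) : T.IsTree := by
  classical
  rw [SimpleGraph.isTree_iff_connected_and_card]
  have hreach : ∀ (n : ℕ) (v : V), rk v ≤ n → T.Reachable v r := by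
    intro n
    induction n with
    | zero =>
      intro v hv
      by_cases h : v = r
      · rw [h]
      · have := hrk v h
        omega
    | succ n ih =>
      intro v hv
      by_cases h : v = r
      · rw [h]
      · have h1 := hrk v h
        have h2 : T.Adj v (par v) := (hadj v (par v)).mpr (Or.inl ⟨h, rfl⟩)
        exact h2.reachable.trans (ih (par v) (by omega))
  refine ⟨?_, ?_⟩
  · have : Nonempty V := ⟨r⟩
    refine SimpleGraph.Connected.mk (fun a b => ?_)
    exact (hreach _ a le_rfl).trans (hreach _ b le_rfl).symm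
  · -- the edges are the pairs (v, par v)
    let F : {v : V // v ≠ r} → T.edgeSet := fun v =>
      ⟨s(v.1, par v.1), (hadj _ _).mpr (Or.inl ⟨v.2, rfl⟩)⟩
    have hF : Function.Bijective F := by
      refine ⟨?_, ?_⟩
      · rintro ⟨v, hv⟩ ⟨w, hw⟩ h
        have h1 : s(v, par v) = s(w, par w) := congrArg Subtype.val h
        rw [Sym2.eq_iff] at h1
        rcases h1 with h1 | h1
        · exact Subtype.ext h1.1
        · exfalso
          have e1 := hrk v hv
          have e2 := hrk w hw
          rw [h1.2] at e1
          rw [← h1.1] at e2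
          omega
      · rintro ⟨e, he⟩
        induction e using Sym2.ind with
        | _ a b =>
          have he' : T.Adj a b := he
          rw [hadj] at he'
          rcases he' with h | h
          · refine ⟨⟨a, h.1⟩, Subtype.ext ?_⟩
            change s(a, par a) = s(a, b)
            rw [h.2]
          · refine ⟨⟨b, h.1⟩, Subtype.ext ?_⟩
            change s(b, par b) = s(a, b)
            rw [h.2]
            exact Sym2.eq_swap
    have h1 := Nat.card_congr (Equiv.ofBijective F hF)
    rw [← h1]
    have h2 : Nat.card {v : V // v ≠ r} = Fintype.card V - 1 := by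
      rw [Nat.card_eq_fintype_card]
      have := Fintype.card_subtype_compl (fun v : V => v = r)
      rw [Fintype.card_subtype_eq] at this
      exact this
    rw [h2, Nat.card_eq_fintype_card]
    have : 0 < Fintype.card V := Fintype.card_pos_iff.mpr ⟨r⟩
    omega

/-- The facts about a decomposition of `K_{a,b}` that are used in the lower bounds. -/
theorem decomp_facts {V : Type} [Fintype V] [DecidableEq V] (T : SimpleGraph V)
    [DecidableRel T.Adj] (a b : ℕ) (hab : 0 < a ∧ 0 < b)
    (hD : Decomposes T (completeBipartiteGraph (Fin a) (Fin b))) :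
    ∃ (ι : Type) (_ : Fintype ι) (f : ι → V → (Fin a ⊕ Fin b)),
      (∀ i, Function.Injective (f i)) ∧
      (∀ i v w, T.Adj v w → ((f i v).isLeft = true ↔ (f i w).isLeft = false)) ∧
      (∀ l w, ∃ i v v', T.Adj v v' ∧ f i v = Sum.inl l ∧ f i v' = Sum.inr w) ∧
      (∀ l w i v v' j u u', T.Adj v v' → f i v = Sum.inl l → f i v' = Sum.inr w →
        T.Adj u u' → f j u = Sum.inl l → f j u' = Sum.inr w → i = j ∧ v = u ∧ v' = u') ∧
      Nonempty ι ∧ Fintype.card ι * T.edgeFinset.card = a * b := by
  classical
  obtain ⟨ι, f, h1, h2⟩ := hD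
  have hside : ∀ i v w, T.Adj v w → ((f i v).isLeft = true ↔ (f i w).isLeft = false) := by
    intro i v w hvw
    have h3 : (T.map (f i)).Adj (f i v) (f i w) := by
      rw [SimpleGraph.map_adj]
      exact ⟨v, w, hvw, rfl, rfl⟩
    have h4 := h1 i h3
    rcases hx : f i v with l | w' <;> rcases hy : f i w with l' | w'' <;>
      rw [hx, hy] at h4 <;> simp_all [completeBipartiteGraph]
  have hmem : ∀ i (l : Fin a) (w : Fin b), s(Sum.inl l, Sum.inr w) ∈ (T.map (f i)).edgeSet ↔
      ∃ v v', T.Adj v v' ∧ f i v = Sum.inl l ∧ f i v' = Sum.inr w := by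
    intro i l w
    rw [SimpleGraph.mem_edgeSet, SimpleGraph.map_adj]
  have hcov : ∀ (l : Fin a) (w : Fin b), ∃! i, s(Sum.inl l, Sum.inr w) ∈ (T.map (f i)).edgeSet := by
    intro l w
    apply h2
    simp [completeBipartiteGraph]
  have hex : ∀ l w, ∃ i v v', T.Adj v v' ∧ f i v = Sum.inl l ∧ f i v' = Sum.inr w := by
    intro l w
    obtain ⟨i, hi, _⟩ := hcov l w
    exact ⟨i, (hmem i l w).mp hi⟩
  have huni : ∀ l w i v v' j u u', T.Adj v v' → f i v = Sum.inl l → f i v' = Sum.inr w →
        T.Adj u u' → f j u = Sum.inl l → f j u' = Sum.inr w → i = j ∧ v = u ∧ v' = u' := by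
    intro l w i v v' j u u' e1 e2 e3 e4 e5 e6
    have hij : i = j := (hcov l w).unique ((hmem i l w).mpr ⟨v, v', e1, e2, e3⟩)
      ((hmem j l w).mpr ⟨u, u', e4, e5, e6⟩)
    subst hij
    exact ⟨rfl, (f i).injective (e2.trans e5.symm), (f i).injective (e3.trans e6.symm)⟩
  choose I P P' hI using hex
  -- an edge of T
  obtain ⟨l0, w0⟩ : Fin a × Fin b := (⟨0, hab.1⟩, ⟨0, hab.2⟩)
  -- pairs (copy, edge) correspond to pairs (l, w)
  let G : Fin a × Fin b → ι × T.edgeSet := fun q =>
    (I q.1 q.2, ⟨s(P q.1 q.2, P' q.1 q.2), (hI q.1 q.2).1⟩)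
  have hG : Function.Bijective G := by
    refine ⟨?_, ?_⟩
    · rintro ⟨l, w⟩ ⟨l', w'⟩ h
      have h3 : I l w = I l' w' := congrArg Prod.fst h
      have h4 : s(P l w, P' l w) = s(P l' w', P' l' w') :=
        congrArg (fun z : ι × T.edgeSet => z.2.1) h
      obtain ⟨e1, e2, e3⟩ := hI l w
      obtain ⟨e1', e2', e3'⟩ := hI l' w'
      rw [Sym2.eq_iff] at h4
      rcases h4 with h4 | h4
      · rw [h3, h4.1] at e2
        rw [h3, h4.2] at e3
        rw [e2'] at e2
        rw [e3'] at e3
        rw [Prod.mk.injEq]
        exact ⟨(Sum.inl_injective e2).symm, (Sum.inr_injective e3).symm⟩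
      · rw [h3, h4.1, e3'] at e2
        simp at e2
    · rintro ⟨i, ⟨e, he⟩⟩
      induction e using Sym2.ind with
      | _ v v' =>
        have he' : T.Adj v v' := he
        have hs := hside i v v' he'
        rcases hx : f i v with l | w
        · rcases hy : f i v' with l' | w
          · rw [hx, hy] at hs
            simp at hs
          · refine ⟨(l, w), ?_⟩
            obtain ⟨e1, e2, e3⟩ := hI l w
            obtain ⟨r1, r2, r3⟩ := huni l w _ _ _ _ _ _ e1 e2 e3 he' hx hy
            simp only [G, r1, r2, r3]
        · rcases hy : f i v' with l | w'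
          · refine ⟨(l, w), ?_⟩
            obtain ⟨e1, e2, e3⟩ := hI l w
            obtain ⟨r1, r2, r3⟩ := huni l w _ _ _ _ _ _ e1 e2 e3 he'.symm hy hx
            simp only [G, r1, r2, r3]
            simp only [Prod.mk.injEq, Subtype.mk.injEq, true_and]
            exact Sym2.eq_swap
          · rw [hx, hy] at hs
            simp at hs
  have e0 := hI l0 w0
  have : Nonempty ι := ⟨I l0 w0⟩
  have hfin : Finite (ι × T.edgeSet) := Finite.of_surjective G hG.2
  have : Nonempty T.edgeSet := ⟨⟨s(P l0 w0, P' l0 w0), e0.1⟩⟩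
  have : Finite ι := Finite.of_surjective (Prod.fst : ι × T.edgeSet → ι) Prod.fst_surjective
  have : Fintype ι := Fintype.ofFinite ι
  refine ⟨ι, inferInstance, fun i v => f i v, fun i => (f i).injective, hside, ?_, huni,
    inferInstance, ?_⟩
  · intro l w
    exact ⟨I l w, P l w, P' l w, hI l w⟩
  · have h3 := Fintype.card_congr (Equiv.ofBijective G hG)
    rw [Fintype.card_prod, Fintype.card_prod, Fintype.card_fin, Fintype.card_fin] at h3
    rw [h3]
    congr 1
    rw [← SimpleGraph.edgeFinset_card]

/-- Degree count at a vertex of the host. -/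
theorem degree_sum {V : Type} [Fintype V] [DecidableEq V] (T : SimpleGraph V)
    [DecidableRel T.Adj] (a b : ℕ) {ι : Type} [Fintype ι] (f : ι → V → (Fin a ⊕ Fin b))
    (hside : ∀ i v w, T.Adj v w → ((f i v).isLeft = true ↔ (f i w).isLeft = false))
    (hex : ∀ l w, ∃ i v v', T.Adj v v' ∧ f i v = Sum.inl l ∧ f i v' = Sum.inr w)
    (huni : ∀ l w i v v' j u u', T.Adj v v' → f i v = Sum.inl l → f i v' = Sum.inr w →
        T.Adj u u' → f j u = Sum.inl l → f j u' = Sum.inr w → i = j ∧ v = u ∧ v' = u') :
    (∀ l : Fin a, ∑ q ∈ (Finset.univ : Finset (ι × V)) with f q.1 q.2 = Sum.inl l,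
      T.degree q.2 = b) ∧
    (∀ w : Fin b, ∑ q ∈ (Finset.univ : Finset (ι × V)) with f q.1 q.2 = Sum.inr w,
      T.degree q.2 = a) := by
  classical
  have key : ∀ z : Fin a ⊕ Fin b,
      ∑ q ∈ (Finset.univ : Finset (ι × V)) with f q.1 q.2 = z, T.degree q.2 =
      ((Finset.univ : Finset ((ι × V) × V)).filter
        (fun q => f q.1.1 q.1.2 = z ∧ T.Adj q.1.2 q.2)).card := by
    intro z
    rw [Finset.card_filter, Fintype.sum_prod_type, Finset.sum_filter]
    apply Finset.sum_congr rfl
    intro q _
    by_cases h : f q.1 q.2 = z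
    · simp only [h, if_true, true_and]
      rw [← Finset.card_filter, ← SimpleGraph.card_neighborFinset_eq_degree]
      congr 1
      ext w
      simp
    · simp [h]
  choose I P P' hI using hex
  refine ⟨?_, ?_⟩
  · intro l
    rw [key]
    conv_rhs => rw [← Fintype.card_fin b]
    rw [← Finset.card_univ]
    symm
    apply Finset.card_bij (fun w _ => ((I l w, P l w), P' l w))
    · intro w _
      rw [Finset.mem_filter]
      exact ⟨Finset.mem_univ _, (hI l w).2.1, (hI l w).1⟩
    · intro w _ w' _ h
      simp only [Prod.mk.injEq] at h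
      have e1 := (hI l w).2.2
      have e2 := (hI l w').2.2
      rw [h.1.1, h.2, e2] at e1
      exact (Sum.inr_injective e1).symm
    · rintro ⟨⟨i, v⟩, v'⟩ hq
      rw [Finset.mem_filter] at hq
      obtain ⟨_, h1, h2⟩ := hq
      simp only at h1 h2
      have hs := (hside i v v' h2).mp (by rw [h1]; rfl)
      rcases hy : f i v' with l' | w
      · rw [hy] at hs
        simp at hs
      · obtain ⟨e1, e2, e3⟩ := hI l w
        obtain ⟨r1, r2, r3⟩ := huni l w _ _ _ _ _ _ e1 e2 e3 h2 h1 hy
        exact ⟨w, Finset.mem_univ _, by rw [r1, r2, r3]⟩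
  · intro w
    rw [key]
    conv_rhs => rw [← Fintype.card_fin a]
    rw [← Finset.card_univ]
    symm
    apply Finset.card_bij (fun l _ => ((I l w, P' l w), P l w))
    · intro l _
      rw [Finset.mem_filter]
      exact ⟨Finset.mem_univ _, (hI l w).2.2, (hI l w).1.symm⟩
    · intro l _ l' _ h
      simp only [Prod.mk.injEq] at h
      have e1 := (hI l w).2.1
      have e2 := (hI l' w).2.1
      rw [h.1.1, h.2, e2] at e1
      exact (Sum.inl_injective e1).symm
    · rintro ⟨⟨i, v⟩, v'⟩ hq
      rw [Finset.mem_filter] at hq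
      obtain ⟨_, h1, h2⟩ := hq
      simp only at h1 h2
      have hs := hside i v' v h2.symm
      rcases hy : f i v' with l | w'
      · obtain ⟨e1, e2, e3⟩ := hI l w
        obtain ⟨r1, r2, r3⟩ := huni l w _ _ _ _ _ _ e1 e2 e3 h2.symm hy h1
        exact ⟨l, Finset.mem_univ _, by rw [r1, r2, r3]⟩
      · rw [hy, h1] at hs
        simp at hs

/-- The code of a vertex of the path. -/
def code {n : ℕ} (v : Fin n × Bool) : ℕ := 2 * (v.1 : ℕ) + (if v.2 then 1 else 0)

theorem code_inj {n : ℕ} {v w : Fin n × Bool} (h : code v = code w) : v = w := by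
  obtain ⟨i, s⟩ := v
  obtain ⟨j, t⟩ := w
  simp only [code] at h
  cases s <;> cases t <;> simp at h ⊢
  · ext; omega
  · omega
  · omega
  · ext; omega

/-- The path on `2 n` vertices. -/
def pathT (n : ℕ) : SimpleGraph (Fin n × Bool) where
  Adj v w := code v + 1 = code w ∨ code w + 1 = code v
  symm.symm v w h := h.symm
  loopless.irrefl v h := by
    rcases h with h | h <;> omega

theorem pathT_adj {n : ℕ} (v w : Fin n × Bool) :
    (pathT n).Adj v w ↔ (code v + 1 = code w ∨ code w + 1 = code v) := Iff.rfl

/-- The vertex of the path with a given code. -/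
def dec (n : ℕ) (hn : 0 < n) (c : ℕ) : Fin n × Bool :=
  (⟨(c / 2) % n, Nat.mod_lt _ hn⟩, c % 2 == 1)

theorem code_dec (n : ℕ) (hn : 0 < n) (c : ℕ) (hc : c < 2 * n) : code (dec n hn c) = c := by
  have h1 : (c / 2) % n = c / 2 := Nat.mod_eq_of_lt (by omega)
  simp only [code, dec, h1]
  rcases Nat.mod_two_eq_zero_or_one c with h | h
  · simp [h]
    omega
  · simp [h]
    omega

theorem code_lt {n : ℕ} (v : Fin n × Bool) : code v < 2 * n := by
  have := v.1.isLt
  simp only [code]
  split_ifs <;> omega

theorem dec_code {n : ℕ} (hn : 0 < n) (v : Fin n × Bool) : dec n hn (code v) = v :=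
  code_inj (code_dec n hn _ (code_lt v))

theorem pathT_isTree (n : ℕ) (hn : 0 < n) : (pathT n).IsTree := by
  classical
  apply isTree_of_parent (pathT n) (dec n hn 0) (fun v => dec n hn (code v - 1)) code
  · intro v hv
    have h1 : code v ≠ 0 := by
      intro h
      apply hv
      rw [← h, dec_code hn]
    have h2 := code_lt v
    rw [code_dec n hn _ (by omega)]
    omega
  · intro v w
    have hv := code_lt v
    have hw := code_lt w
    rw [pathT_adj]
    have e0 : code (dec n hn 0) = 0 := code_dec n hn 0 (by omega)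
    constructor
    · rintro (h | h)
      · right
        refine ⟨?_, ?_⟩
        · rintro rfl
          omega
        · apply code_inj
          rw [code_dec n hn _ (by omega)]
          omega
      · left
        refine ⟨?_, ?_⟩
        · rintro rfl
          omega
        · apply code_inj
          rw [code_dec n hn _ (by omega)]
          omega
    · rintro (⟨h1, h2⟩ | ⟨h1, h2⟩)
      · have h3 : code v ≠ 0 := by
          intro h
          apply h1
          rw [← h, dec_code hn]
        have h4 := congrArg code h2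
        rw [code_dec n hn _ (by omega)] at h4
        omega
      · have h3 : code w ≠ 0 := by
          intro h
          apply h1
          rw [← h, dec_code hn]
        have h4 := congrArg code h2
        rw [code_dec n hn _ (by omega)] at h4
        omega

theorem card_snd (n : ℕ) (s : Bool) : Fintype.card {v : Fin n × Bool // v.2 = s} = n := by
  have e : {v : Fin n × Bool // v.2 = s} ≃ Fin n :=
    { toFun := fun v => v.1.1
      invFun := fun i => ⟨(i, s), rfl⟩
      left_inv := by
        rintro ⟨⟨i, t⟩, h⟩
        simp only at h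
        subst h
        rfl
      right_inv := fun i => rfl }
  rw [Fintype.card_congr e, Fintype.card_fin]

theorem pathT_balanced (n : ℕ) (hn : 0 < n) : IsBalancedTree n (pathT n) := by
  refine ⟨pathT_isTree n hn, fun v => v.2, ?_, card_snd n true, card_snd n false⟩
  rintro ⟨i, s⟩ ⟨j, t⟩ h hst
  simp only at hst
  subst hst
  rw [pathT_adj] at h
  simp only [code] at h
  cases s <;> simp at h <;> omega

/-- In a copy of a tree, the side of the host alternates along the edges; for the path the side
is determined by the Boolean coordinate. -/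
theorem path_side (n a b : ℕ) (hn : 0 < n) (g : Fin n × Bool → (Fin a ⊕ Fin b))
    (hside : ∀ v w, (pathT n).Adj v w → ((g v).isLeft = true ↔ (g w).isLeft = false)) :
    ∃ s : Bool, ∀ v, (g v).isLeft = (v.2 == s) := by
  have key : ∀ c, c < 2 * n → (g (dec n hn c)).isLeft =
      ((c % 2 == 1) == !(g (dec n hn 0)).isLeft) := by
    intro c
    induction c with
    | zero =>
      intro _
      simp
    | succ c ih =>
      intro hc
      have h1 := ih (by omega)
      have h2 : (pathT n).Adj (dec n hn c) (dec n hn (c + 1)) := by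
        rw [pathT_adj, code_dec n hn c (by omega), code_dec n hn (c + 1) hc]
        left
        rfl
      have h3 := hside _ _ h2
      rcases Nat.mod_two_eq_zero_or_one c with h4 | h4
      · have h5 : (c + 1) % 2 = 1 := by omega
        rw [h4] at h1
        rw [h5]
        revert h1 h3
        generalize (g (dec n hn c)).isLeft = p
        generalize (g (dec n hn (c + 1))).isLeft = q
        generalize (g (dec n hn 0)).isLeft = r
        cases p <;> cases q <;> cases r <;> simp
      · have h5 : (c + 1) % 2 = 0 := by omega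
        rw [h4] at h1
        rw [h5]
        revert h1 h3
        generalize (g (dec n hn c)).isLeft = p
        generalize (g (dec n hn (c + 1))).isLeft = q
        generalize (g (dec n hn 0)).isLeft = r
        cases p <;> cases q <;> cases r <;> simp
  refine ⟨!(g (dec n hn 0)).isLeft, fun v => ?_⟩
  have h1 := key (code v) (code_lt v)
  rw [dec_code hn] at h1
  rw [h1]
  congr 1
  obtain ⟨i, s⟩ := v
  simp only [code]
  cases s
  · simp
  · simp

end Pool.Agent.Lib.MP_7c15de_co
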