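import Mathlib
import Pool.Agent.Lib.MP_7c15de_co.Lower

set_option autoImplicit false

namespace Pool.Agent.Lib.MP_7c15de_co

open Finset

/-- An interior vertex of the path has degree `2`. -/
theorem pathT_degree (n : ℕ) (hn : 0 < n) [DecidableRel (pathT n).Adj] (v : Fin n × Bool)
    (h0 : code v ≠ 0) (h1 : code v + 1 < 2 * n) : (pathT n).degree v = 2 := by
  classical
  rw [← SimpleGraph.card_neighborFinset_eq_degree]
  have h2 : (pathT n).neighborFinset v = {dec n hn (code v - 1), dec n hn (code v + 1)} := by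
    ext w
    rw [SimpleGraph.mem_neighborFinset, pathT_adj, Finset.mem_insert, Finset.mem_singleton]
    have hw := code_lt w
    constructor
    · rintro (h | h)
      · right
        apply code_inj
        rw [code_dec n hn _ (by omega)]
        omega
      · left
        apply code_inj
        rw [code_dec n hn _ (by omega)]
        omega
    · rintro (h | h)
      · right
        rw [h, code_dec n hn _ (by omega)]
        omega
      · left
        rw [h, code_dec n hn _ (by omega)]
  rw [h2, Finset.card_pair]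
  intro h
  have h3 := congrArg code h
  rw [code_dec n hn _ (by omega), code_dec n hn _ (by omega)] at h3
  omega

/-- Every element of `S(n)` is at least `n`. -/
theorem le_of_mem_S (n k : ℕ) (hn : 0 < n) (hk : k ∈ S n) : n ≤ k := by
  classical
  have hD := hk.2 _ (pathT n) (pathT_balanced n hn)
  obtain ⟨ι, _, f, hinj, hside, _, _, hne, _⟩ :=
    decomp_facts (pathT n) (2 * n - 1) k ⟨by omega, hk.1⟩ hD
  obtain ⟨i⟩ := hne
  obtain ⟨s, hs⟩ := path_side n (2 * n - 1) k hn (f i) (hside i)
  have h1 : ∀ j : Fin n, ∃ w, f i (j, !s) = Sum.inr w := by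
    intro j
    have h2 := hs (j, !s)
    rcases hx : f i (j, !s) with l | w
    · rw [hx] at h2
      cases s <;> simp at h2
    · exact ⟨w, rfl⟩
  choose g hg using h1
  have h3 : Function.Injective g := by
    intro j j' h
    have h4 : f i (j, !s) = f i (j', !s) := by rw [hg, hg, h]
    have h5 := hinj i h4
    exact congrArg Prod.fst h5
  have h4 := Fintype.card_le_of_injective g h3
  simpa using h4

/-- Every odd element of `S(n)` is at least `2 n - 1`. -/
theorem odd_le_of_mem_S (n k : ℕ) (hn : 0 < n) (hk : k ∈ S n) (hodd : Odd k) :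
    2 * n - 1 ≤ k := by
  classical
  have hD := hk.2 _ (pathT n) (pathT_balanced n hn)
  obtain ⟨ι, _, f, hinj, hside, hex, huni, _, hcard⟩ :=
    decomp_facts (pathT n) (2 * n - 1) k ⟨by omega, hk.1⟩ hD
  have hE : (pathT n).edgeFinset.card + 1 = 2 * n := by
    have := (pathT_isTree n hn).card_edgeFinset
    rw [this, Fintype.card_prod, Fintype.card_fin, Fintype.card_bool, Nat.mul_comm]
  have hι : Fintype.card ι = k := by
    have h1 : (pathT n).edgeFinset.card = 2 * n - 1 := by omega
    rw [h1, Nat.mul_comm] at hcard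
    exact Nat.eq_of_mul_eq_mul_left (by omega) hcard
  obtain ⟨hdl, _⟩ := degree_sum (pathT n) (2 * n - 1) k f hside hex huni
  have hend : ∀ l : Fin (2 * n - 1), ∃ i v, f i v = Sum.inl l ∧ (code v = 0 ∨ code v + 1 = 2 * n) := by
    intro l
    by_contra hcon
    push Not at hcon
    have h1 := hdl l
    have h2 : Even (∑ q ∈ (Finset.univ : Finset (ι × (Fin n × Bool))) with f q.1 q.2 = Sum.inl l,
        (pathT n).degree q.2) := by
      apply Finset.even_sum
      intro q hq
      rw [Finset.mem_filter] at hq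
      have h3 := hcon q.1 q.2 hq.2
      have h4 := code_lt q.2
      rw [pathT_degree n hn q.2 h3.1 (by omega)]
      exact even_two
    rw [h1] at h2
    exact (Nat.not_even_iff_odd.mpr hodd) h2
  choose I P hIP using hend
  have hinjI : Function.Injective I := by
    intro l l' h
    obtain ⟨h1, h2⟩ := hIP l
    obtain ⟨h1', h2'⟩ := hIP l'
    rw [← h] at h1'
    obtain ⟨s, hs⟩ := path_side n (2 * n - 1) k hn (f (I l)) (hside (I l))
    have h3 := hs (P l)
    have h3' := hs (P l')
    rw [h1] at h3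
    rw [h1'] at h3'
    have h4 : (P l).2 = (P l').2 := by
      simp only [Sum.isLeft_inl] at h3 h3'
      have e1 := eq_of_beq h3.symm
      have e2 := eq_of_beq h3'.symm
      rw [e1, e2]
    have h5 : P l = P l' := by
      apply code_inj
      simp only [code] at h2 h2' ⊢
      rw [h4] at h2 ⊢
      cases hb : (P l').2
      · rw [hb] at h2 h2'
        simp only [Bool.false_eq_true, if_false] at h2 h2' ⊢
        omega
      · rw [hb] at h2 h2'
        simp only [if_true] at h2 h2' ⊢
        omega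
    rw [← h5, h1] at h1'
    exact Sum.inl_injective h1'
  have h4 := Fintype.card_le_of_injective I hinjI
  rw [Fintype.card_fin, hι] at h4
  exact h4

/-- The tree with two disjoint stars with `n - 1` leaves, centred at `(0, false)` and
`(0, true)`, and one more edge joining the leaves `(1, true)` and `(1, false)`. -/
def brT (n : ℕ) : SimpleGraph (Fin n × Bool) where
  Adj v w := v.2 ≠ w.2 ∧ (((v.1 : ℕ) = 0 ∧ (w.1 : ℕ) ≠ 0) ∨ ((v.1 : ℕ) ≠ 0 ∧ (w.1 : ℕ) = 0) ∨
    ((v.1 : ℕ) = 1 ∧ (w.1 : ℕ) = 1))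
  symm.symm v w h := by
    refine ⟨h.1.symm, ?_⟩
    rcases h.2 with h1 | h1 | h1
    · exact Or.inr (Or.inl ⟨h1.2, h1.1⟩)
    · exact Or.inl ⟨h1.2, h1.1⟩
    · exact Or.inr (Or.inr ⟨h1.2, h1.1⟩)
  loopless.irrefl v h := h.1 rfl

theorem brT_adj {n : ℕ} (v w : Fin n × Bool) :
    (brT n).Adj v w ↔ v.2 ≠ w.2 ∧ (((v.1 : ℕ) = 0 ∧ (w.1 : ℕ) ≠ 0) ∨
      ((v.1 : ℕ) ≠ 0 ∧ (w.1 : ℕ) = 0) ∨ ((v.1 : ℕ) = 1 ∧ (w.1 : ℕ) = 1)) := Iff.rfl

theorem brT_isTree (n : ℕ) (hn : 2 ≤ n) : (brT n).IsTree := by
  classical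
  let z0 : Fin n := ⟨0, by omega⟩
  let z1 : Fin n := ⟨1, by omega⟩
  let par : Fin n × Bool → Fin n × Bool := fun v =>
    if v.2 = true then (if (v.1 : ℕ) = 0 then (z1, false) else (z0, false))
    else (if (v.1 : ℕ) = 1 then (z1, true) else (z0, true))
  let rk : Fin n × Bool → ℕ := fun v =>
    if v.2 = true then (if (v.1 : ℕ) = 0 then 3 else 1)
    else (if (v.1 : ℕ) = 0 then 0 else if (v.1 : ℕ) = 1 then 2 else 4)
  apply isTree_of_parent (brT n) (z0, false) par rk
  · rintro ⟨i, s⟩ hv
    cases s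
    · have h1 : (i : ℕ) ≠ 0 := by
        intro h
        apply hv
        rw [Prod.mk.injEq]
        exact ⟨Fin.ext h, rfl⟩
      by_cases h2 : (i : ℕ) = 1 <;> simp [par, rk, h1, h2, z0, z1]
    · by_cases h2 : (i : ℕ) = 0 <;> simp [par, rk, h2, z0, z1]
  · have e0 : ∀ i : Fin n, i = z0 ↔ (i : ℕ) = 0 := fun i => by
      rw [Fin.ext_iff]
    have e1 : ∀ i : Fin n, i = z1 ↔ (i : ℕ) = 1 := fun i => by
      rw [Fin.ext_iff]
    rintro ⟨i, s⟩ ⟨j, t⟩
    rw [brT_adj]
    cases s <;> cases t <;>
      by_cases h1 : (i : ℕ) = 0 <;> by_cases h2 : (j : ℕ) = 0 <;>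
      by_cases h3 : (i : ℕ) = 1 <;> by_cases h4 : (j : ℕ) = 1 <;>
      simp [par, h1, h2, h3, h4, e0, e1, eq_comm (a := z0), eq_comm (a := z1)]

theorem brT_balanced (n : ℕ) (hn : 2 ≤ n) : IsBalancedTree n (brT n) :=
  ⟨brT_isTree n hn, fun v => v.2, fun _ _ h => h.1, card_snd n true, card_snd n false⟩

/-- The side of the host is determined by the colour. -/
theorem side_const {V : Type} (T : SimpleGraph V) (hT : T.Connected) (c : V → Bool)
    (hc : ∀ v w, T.Adj v w → c v ≠ c w) {a b : ℕ} (g : V → (Fin a ⊕ Fin b))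
    (hside : ∀ v w, T.Adj v w → ((g v).isLeft = true ↔ (g w).isLeft = false)) :
    ∃ s : Bool, ∀ v, (g v).isLeft = (c v == s) := by
  have key : ∀ u v, T.Reachable u v → (((g u).isLeft == c u) = ((g v).isLeft == c v)) := by
    rintro u v ⟨p⟩
    induction p with
    | nil => rfl
    | cons h _ ih =>
      rw [← ih]
      have h1 := hc _ _ h
      have h2 := hside _ _ h
      revert h1 h2
      generalize c _ = x1
      generalize c _ = x2
      generalize (g _).isLeft = x3
      generalize (g _).isLeft = x4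
      cases x1 <;> cases x2 <;> cases x3 <;> cases x4 <;> simp
  obtain ⟨r⟩ := hT.nonempty
  refine ⟨(g r).isLeft == c r, fun v => ?_⟩
  have h := key v r (hT.preconnected v r)
  rw [← h]
  generalize c v = x
  generalize (g v).isLeft = y
  cases x <;> cases y <;> rfl

/-- `n` is not in `S(n)` for `n ≥ 4`. -/
theorem not_mem_S (n : ℕ) (hn : 4 ≤ n) : n ∉ S n := by
  classical
  intro hk
  have hD := hk.2 _ (brT n) (brT_balanced n (by omega))
  obtain ⟨ι, _, f, hinj, hside, hex, huni, hne, hcard⟩ :=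
    decomp_facts (brT n) (2 * n - 1) n ⟨by omega, hk.1⟩ hD
  have hE : (brT n).edgeFinset.card + 1 = 2 * n := by
    have := (brT_isTree n (by omega)).card_edgeFinset
    rw [this, Fintype.card_prod, Fintype.card_fin, Fintype.card_bool, Nat.mul_comm]
  have hι : Fintype.card ι = n := by
    have h1 : (brT n).edgeFinset.card = 2 * n - 1 := by omega
    rw [h1, Nat.mul_comm] at hcard
    exact Nat.eq_of_mul_eq_mul_left (by omega) hcard
  obtain ⟨_, hdr⟩ := degree_sum (brT n) (2 * n - 1) n f hside hex huni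
  let z0 : Fin n := ⟨0, by omega⟩
  -- sides
  have hs : ∀ i, ∃ s : Bool, ∀ v : Fin n × Bool, (f i v).isLeft = (v.2 == s) := fun i =>
    side_const (brT n) (brT_isTree n (by omega)).1 (fun v => v.2) (fun _ _ h => h.1) (f i) (hside i)
  choose σ hσ using hs
  have hR : ∀ i (j : Fin n), ∃ w, f i (j, !σ i) = Sum.inr w := by
    intro i j
    have h2 := hσ i (j, !σ i)
    rcases hx : f i (j, !σ i) with l | w
    · rw [hx] at h2
      cases h : σ i <;> rw [h] at h2 <;> simp at h2
    · exact ⟨w, rfl⟩
  choose R hR using hR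
  have hL : ∀ i (j : Fin n), ∃ l, f i (j, σ i) = Sum.inl l := by
    intro i j
    have h2 := hσ i (j, σ i)
    rcases hx : f i (j, σ i) with l | w
    · exact ⟨l, rfl⟩
    · rw [hx] at h2
      simp at h2
  choose L hL using hL
  have hRinj : ∀ i, Function.Injective (R i) := by
    intro i j j' h
    have h4 : f i (j, !σ i) = f i (j', !σ i) := by rw [hR, hR, h]
    exact congrArg Prod.fst (hinj i h4)
  have hRsurj : ∀ i, Function.Surjective (R i) := fun i =>
    Finite.surjective_of_injective (hRinj i)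
  -- degrees
  have hdeg0 : ∀ s : Bool, (brT n).degree (z0, s) = n - 1 := by
    intro s
    rw [← SimpleGraph.card_neighborFinset_eq_degree]
    have h1 : (brT n).neighborFinset (z0, s) =
        ((Finset.univ : Finset (Fin n)).erase z0).image (fun j => (j, !s)) := by
      ext ⟨j, t⟩
      rw [SimpleGraph.mem_neighborFinset, brT_adj, Finset.mem_image]
      constructor
      · rintro ⟨h1, h2⟩
        have h3 : (j : ℕ) ≠ 0 := by
          rcases h2 with h2 | h2 | h2
          · exact h2.2
          · exact absurd rfl h2.1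
          · simp only [z0] at h2
            omega
        refine ⟨j, ?_, ?_⟩
        · rw [Finset.mem_erase]
          refine ⟨?_, Finset.mem_univ _⟩
          intro h
          apply h3
          rw [h]
        · simp only at h1
          cases s <;> cases t <;> simp at h1 ⊢
      · rintro ⟨j', h1, h2⟩
        rw [Prod.mk.injEq] at h2
        obtain ⟨rfl, rfl⟩ := h2
        refine ⟨by cases s <;> simp, Or.inl ⟨rfl, ?_⟩⟩
        intro h
        exact (Finset.mem_erase.mp h1).1 (Fin.ext h)
    rw [h1, Finset.card_image_of_injective _ (fun _ _ h => congrArg Prod.fst h),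
      Finset.card_erase_of_mem (Finset.mem_univ _), Finset.card_univ, Fintype.card_fin]
  have hnt : Nontrivial (Fin n × Bool) := by
    rw [← Fintype.one_lt_card_iff_nontrivial, Fintype.card_prod, Fintype.card_fin,
      Fintype.card_bool]
    omega
  have hdegpos : ∀ v, 1 ≤ (brT n).degree v := fun v =>
    (brT_isTree n (by omega)).1.preconnected.degree_pos_of_nontrivial v
  -- the big vertices on the right are different
  have hbig : ∀ i j, R i z0 = R j z0 → i = j := by
    intro i j h
    by_contra hij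
    have hw := hdr (R i z0)
    -- the role of this vertex in each copy
    have hrole : ∀ i', ∃ j', R i' j' = R i z0 := fun i' => hRsurj i' _
    choose ro hro using hrole
    have hroi : ro i = z0 := hRinj i (hro i)
    have hroj : ro j = z0 := hRinj j ((hro j).trans h)
    have h1 : ∑ i' : ι, (brT n).degree (ro i', !σ i') ≤
        ∑ q ∈ (Finset.univ : Finset (ι × (Fin n × Bool))) with f q.1 q.2 = Sum.inr (R i z0),
          (brT n).degree q.2 := by
      have h2 : ∑ i' : ι, (brT n).degree (ro i', !σ i') =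
          ∑ q ∈ (Finset.univ : Finset ι).image (fun i' => (i', (ro i', !σ i'))),
            (brT n).degree q.2 := by
        rw [Finset.sum_image]
        intro x _ y _ hxy
        exact congrArg Prod.fst hxy
      rw [h2]
      apply Finset.sum_le_sum_of_subset
      intro q hq
      rw [Finset.mem_image] at hq
      obtain ⟨i', _, rfl⟩ := hq
      rw [Finset.mem_filter]
      refine ⟨Finset.mem_univ _, ?_⟩
      simp only
      rw [hR, hro]
    have h3 : n + (n - 2) + (n - 2) ≤ ∑ i' : ι, (brT n).degree (ro i', !σ i') := by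
      have h4 : ∑ i' : ι, (brT n).degree (ro i', !σ i') =
          ∑ i' : ι, (((brT n).degree (ro i', !σ i') - 1) + 1) := by
        apply Finset.sum_congr rfl
        intro i' _
        have := hdegpos (ro i', !σ i')
        omega
      rw [h4, Finset.sum_add_distrib, Finset.sum_const, Finset.card_univ, hι, smul_eq_mul,
        Nat.mul_one]
      have h5 : ∑ i' ∈ ({i, j} : Finset ι), ((brT n).degree (ro i', !σ i') - 1) ≤
          ∑ i' : ι, ((brT n).degree (ro i', !σ i') - 1) :=
        Finset.sum_le_sum_of_subset (Finset.subset_univ _)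
      rw [Finset.sum_pair hij, hroi, hroj, hdeg0, hdeg0] at h5
      omega
    rw [hw] at h1
    omega
  obtain ⟨i0⟩ := hne
  obtain ⟨i1, v, v', hadj, hv, hv'⟩ := hex (L i0 z0) (R i0 z0)
  have hvs : v.2 = σ i1 := by
    have h1 := hσ i1 v
    rw [hv] at h1
    simp only [Sum.isLeft_inl] at h1
    exact eq_of_beq h1.symm
  have hvs' : v'.2 = !σ i1 := by
    have h1 := hadj.1
    rw [hvs] at h1
    cases h2 : σ i1 <;> cases h3 : v'.2 <;> rw [h2, h3] at h1 <;> simp at h1 ⊢
  have hne01 : i1 ≠ i0 := by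
    rintro rfl
    have e1 : v = (z0, σ i1) := hinj i1 (hv.trans (hL i1 z0).symm)
    have e2 : v' = (z0, !σ i1) := hinj i1 (hv'.trans (hR i1 z0).symm)
    rw [e1, e2, brT_adj] at hadj
    simp [z0] at hadj
  have hv'0 : (v'.1 : ℕ) ≠ 0 := by
    intro h
    apply hne01
    apply hbig
    have e1 : v' = (z0, !σ i1) := Prod.ext (Fin.ext h) hvs'
    rw [e1, hR] at hv'
    exact Sum.inr_injective hv'
  -- another neighbour of v
  obtain ⟨v'', hadj', hv''s, hv''ne⟩ : ∃ v'', (brT n).Adj v v'' ∧ v''.2 = (!σ i1) ∧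
      v''.1 ≠ v'.1 := by
    have hside' : ∀ j : Fin n, v.2 ≠ ((j, !σ i1) : Fin n × Bool).2 := by
      intro j
      rw [hvs]
      cases σ i1 <;> simp
    have hor := hadj.2
    by_cases h0 : (v.1 : ℕ) = 0
    · by_cases h1 : (v'.1 : ℕ) = 1
      · refine ⟨(⟨2, by omega⟩, !σ i1), ⟨hside' _, Or.inl ⟨h0, by simp⟩⟩, rfl, ?_⟩
        intro h
        rw [← h] at h1
        simp at h1
      · refine ⟨(⟨1, by omega⟩, !σ i1), ⟨hside' _, Or.inl ⟨h0, by simp⟩⟩, rfl, ?_⟩
        intro h
        rw [← h] at h1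
        simp at h1
    · refine ⟨(z0, !σ i1), ⟨hside' _, Or.inr (Or.inl ⟨h0, rfl⟩)⟩, rfl, ?_⟩
      intro h
      rw [← h] at hv'0
      exact hv'0 rfl
  have e3 : v'' = (v''.1, !σ i1) := Prod.ext rfl hv''s
  have e4 : f i1 v'' = Sum.inr (R i1 v''.1) := by
    rw [e3, hR]
  have e5 : v' = (v'.1, !σ i1) := Prod.ext rfl hvs'
  have e6 : R i1 v'.1 = R i0 z0 := by
    rw [e5, hR] at hv'
    exact Sum.inr_injective hv'
  obtain ⟨j', hj'⟩ := hRsurj i0 (R i1 v''.1)
  have hj'0 : (j' : ℕ) ≠ 0 := by
    intro h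
    have e7 : j' = z0 := Fin.ext h
    rw [e7, ← e6] at hj'
    exact hv''ne (hRinj i1 hj').symm
  have hadj0 : (brT n).Adj (z0, σ i0) (j', !σ i0) :=
    ⟨by cases σ i0 <;> simp, Or.inl ⟨rfl, hj'0⟩⟩
  have := huni (L i0 z0) (R i1 v''.1) i1 v v'' i0 (z0, σ i0) (j', !σ i0) hadj' hv e4 hadj0
    (hL i0 z0) (by rw [hR, hj'])
  exact hne01 this.1

/-- **Lower bounds.** -/
theorem lower_bound (n k : ℕ) (hn : 3 ≤ n) (hk : k ∈ S n) :
    n + 1 ≤ k ∧ (Odd k → 2 * n - 1 ≤ k) := by
  refine ⟨?_, odd_le_of_mem_S n k (by omega) hk⟩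
  have h1 := le_of_mem_S n k (by omega) hk
  rcases Nat.lt_or_ge n k with h2 | h2
  · exact h2
  · exfalso
    have h3 : k = n := by omega
    subst h3
    by_cases h4 : k = 3
    · subst h4
      have := odd_le_of_mem_S 3 3 (by omega) hk (by decide)
      omega
    · exact not_mem_S k (by omega) hk

end Pool.Agent.Lib.MP_7c15de_co
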