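import Mathlib
import Pool.Agent.Lib.MP_7c15de_co.Defs
import Pool.Agent.Lib.MP_7c15de_co.Block
import Pool.Agent.Lib.MP_7c15de_co.Criterion

set_option autoImplicit false

namespace Pool.Agent.Lib.MP_7c15de_co

open Finset

/-- The combinatorial data extracted from a tree. -/
structure Plan {V : Type} [Fintype V] [DecidableEq V] (T : SimpleGraph V) (X : Finset V)
    (N : V → ℕ) where
  r0 : V
  y0 : V
  par : V → V
  μ : V → ℕ
  M : Finset V
  ch : V → Finset V
  last : V → V
  num : V → ℕ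
  P : V → Finset V
  M_sub : M ⊆ X
  y0_nX : y0 ∉ X
  r0_X : r0 ∈ X
  r0_nM : r0 ∉ M
  r0_nP : ∀ x ∈ M, r0 ∉ P x
  ch_spec : ∀ x ∈ M, ∀ c ∈ ch x, c ∉ X ∧ c ≠ y0 ∧ par c = x
  adj_iff : ∀ x ∈ M, ∀ y, T.Adj x y ↔ (y = par x ∨ y ∈ ch x)
  cover : ∀ y ∉ X, y ≠ y0 → par y ∈ M ∧ y ∈ ch (par y)
  last_mem : ∀ x ∈ M, last x ∈ ch x
  num_spec : ∀ x ∈ M, ∀ c ∈ ch x, c ≠ last x → 1 ≤ num c ∧ num c + 1 ≤ (ch x).card
  num_inj : ∀ x ∈ M, ∀ c ∈ ch x, ∀ c' ∈ ch x, c ≠ last x → c' ≠ last x → num c = num c' → c = c'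
  leaf_adj : ∀ x ∈ X, x ∉ M → ∀ y y', T.Adj x y → T.Adj x y' → y = y'
  leaf_ex : ∀ x ∈ X, x ∉ M → ∃ y, T.Adj x y
  P_spec : ∀ x ∈ M, ∀ r ∈ P x, r ∈ X ∧ r ∉ M ∧ T.Adj r (par r)
  P_disj : ∀ x ∈ M, ∀ x' ∈ M, ∀ r, r ∈ P x → r ∈ P x' → x = x'
  P_card : ∀ x ∈ M, N x = (ch x).card + 1 + (P x).card ∧ (P x).card + 1 ≤ (ch x).card
  μ_par : ∀ x ∈ M, ∀ c ∈ ch x, μ (par x) < μ c
  μ_P : ∀ x ∈ M, ∀ r ∈ P x, μ (par r) < μ (last x)

/-- Recursion on a measure. -/
theorem rec_exists {V : Type} (μ : V → ℕ) (body : V → (V → ℤ) → ℤ) :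
    ∃ u : V → ℤ, ∀ y, u y = body y (fun z => if μ z < μ y then u z else 0) := by
  classical
  let F : (y : V) → ((z : V) → μ z < μ y → ℤ) → ℤ :=
    fun y ih => body y (fun z => if h : μ z < μ y then ih z h else 0)
  let u : V → ℤ := (measure μ).wf.fix F
  refine ⟨u, fun y => ?_⟩
  have h := (measure μ).wf.fix_eq F y
  change u y = F y (fun z _ => u z) at h
  rw [h]
  simp only [F]
  congr 1

/-- Disjoint intervals of prescribed lengths. -/
theorem offsets {V : Type} [Fintype V] [DecidableEq V] (M : Finset V) (N : V → ℕ) :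
    ∃ off : V → ℕ, (∀ x ∈ M, off x + N x ≤ ∑ z ∈ M, N z) ∧
      ∀ x ∈ M, ∀ x' ∈ M, x ≠ x' → off x + N x ≤ off x' ∨ off x' + N x' ≤ off x := by
  classical
  let e := Fintype.equivFin V
  let off : V → ℕ := fun x => ∑ z ∈ M.filter (fun z => e z < e x), N z
  have key : ∀ x ∈ M, ∀ s : Finset V, (∀ z ∈ s, z ∈ M) → (∀ z ∈ M, e z ≤ e x → z ∈ s) →
      off x + N x ≤ ∑ z ∈ s, N z := by
    intro x hx s hs hsub
    have h1 : off x + N x = ∑ z ∈ insert x (M.filter (fun z => e z < e x)), N z := by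
      rw [Finset.sum_insert (by simp), add_comm]
    rw [h1]
    apply Finset.sum_le_sum_of_subset
    intro z hz
    rw [Finset.mem_insert, Finset.mem_filter] at hz
    rcases hz with rfl | ⟨hz1, hz2⟩
    · exact hsub _ hx le_rfl
    · exact hsub _ hz1 hz2.le
  refine ⟨off, fun x hx => key x hx M (fun z hz => hz) (fun z hz _ => hz), ?_⟩
  intro x hx x' hx' hne
  rcases lt_or_gt_of_ne (fun h => hne (e.injective h)) with h | h
  · left
    apply key x hx
    · intro z hz
      exact (Finset.mem_filter.mp hz).1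
    · intro z hz hzx
      exact Finset.mem_filter.mpr ⟨hz, lt_of_le_of_lt hzx h⟩
  · right
    apply key x' hx'
    · intro z hz
      exact (Finset.mem_filter.mp hz).1
    · intro z hz hzx
      exact Finset.mem_filter.mpr ⟨hz, lt_of_le_of_lt hzx h⟩

theorem Plan.decomposes {V : Type} [Fintype V] [DecidableEq V] {T : SimpleGraph V}
    (hT : T.IsTree) {X : Finset V} (hbip : ∀ a b, T.Adj a b → (a ∈ X ↔ b ∉ X)) {N : V → ℕ}
    (Q : Plan T X N) (m k : ℕ) (hm : Fintype.card V = m + 1) (hmk : m ≤ k)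
    (hN : ∀ x ∈ Q.M, N x ∣ k) :
    Decomposes T (completeBipartiteGraph (Fin m) (Fin k)) := by
  classical
  -- the block lemma, for all mains
  have hblock : ∀ (x : V) (u0 : ℤ) (v : V → ℤ), ∃ (ρ : ℤ) (a : V → ℤ), x ∈ Q.M →
      (∀ i : ℕ, i < (Q.ch x).card → ¬ ρ ≡ u0 + i [ZMOD N x]) ∧
      (∀ r ∈ Q.P x, ¬ a r ≡ 0 [ZMOD N x]) ∧
      (∀ r ∈ Q.P x, ∀ r' ∈ Q.P x, a r ≡ a r' [ZMOD N x] → r = r') ∧
      (∀ r ∈ Q.P x, ∀ r' ∈ Q.P x, a r - v r ≡ a r' - v r' [ZMOD N x] → r = r') ∧
      (∀ r ∈ Q.P x, ∀ i : ℕ, i < (Q.ch x).card → ¬ a r - v r ≡ -(u0 + i) [ZMOD N x]) ∧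
      (∀ r ∈ Q.P x, ¬ a r - v r ≡ -ρ [ZMOD N x]) := by
    intro x u0 v
    by_cases hx : x ∈ Q.M
    · have h1 := Q.P_card x hx
      obtain ⟨ρ, a, c1, c2, c3, c4, c5, c6⟩ := block (N x) ((Q.ch x).card + 1) (Q.P x).card
        (by omega) h1.1 (by omega) (Q.P x) rfl u0 v
      exact ⟨ρ, a, fun _ => ⟨fun i hi => c1 i (by omega), c2, c3, c4,
        fun r hr i hi => c5 r hr i (by omega), c6⟩⟩
    · exact ⟨0, fun _ => 0, fun h => absurd h hx⟩
  choose ρ a' hρa using hblock
  obtain ⟨off, hoff1, hoff2⟩ := offsets Q.M N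
  -- degrees
  have hdeg : ∑ x ∈ Q.M, ((Q.ch x).card + 1) + (X \ Q.M).card = m := by
    have h1 := sum_deg_class T hT X hbip
    rw [hm] at h1
    have h2 : ∑ x ∈ X, T.degree x = m := by omega
    rw [← h2, ← Finset.sum_sdiff Q.M_sub, add_comm]
    congr 1
    · rw [Finset.card_eq_sum_ones]
      apply Finset.sum_congr rfl
      intro x hx
      rw [Finset.mem_sdiff] at hx
      symm
      rw [← SimpleGraph.card_neighborFinset_eq_degree, Finset.card_eq_one]
      obtain ⟨y, hy⟩ := Q.leaf_ex x hx.1 hx.2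
      refine ⟨y, ?_⟩
      ext z
      rw [SimpleGraph.mem_neighborFinset, Finset.mem_singleton]
      exact ⟨fun hz => Q.leaf_adj x hx.1 hx.2 z y hz hy, fun hz => hz ▸ hy⟩
    · apply Finset.sum_congr rfl
      intro x hx
      rw [← SimpleGraph.card_neighborFinset_eq_degree]
      have h3 : T.neighborFinset x = insert (Q.par x) (Q.ch x) := by
        ext z
        rw [SimpleGraph.mem_neighborFinset, Finset.mem_insert]
        exact Q.adj_iff x hx z
      rw [h3, Finset.card_insert_of_notMem]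
      intro hmem
      exact lt_irrefl _ (Q.μ_par x hx _ hmem)
  -- padding leaves
  let U : Finset V := Q.M.biUnion Q.P
  have hUcard : U.card = ∑ x ∈ Q.M, (Q.P x).card := by
    apply Finset.card_biUnion
    intro x hx x' hx' hne
    change Disjoint (Q.P x) (Q.P x')
    rw [Finset.disjoint_left]
    intro r hr hr'
    exact hne (Q.P_disj x hx x' hx' r hr hr')
  have hUsub : U ⊆ X \ Q.M := by
    intro r hr
    rw [Finset.mem_biUnion] at hr
    obtain ⟨x, hx, hr⟩ := hr
    have := Q.P_spec x hx r hr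
    exact Finset.mem_sdiff.mpr ⟨this.1, this.2.1⟩
  have hsumN : ∑ x ∈ Q.M, N x + ((X \ Q.M).card - U.card) = m := by
    have h1 : ∑ x ∈ Q.M, N x = ∑ x ∈ Q.M, ((Q.ch x).card + 1) + U.card := by
      rw [hUcard, ← Finset.sum_add_distrib]
      apply Finset.sum_congr rfl
      intro x hx
      exact (Q.P_card x hx).1
    have h2 := Finset.card_le_card hUsub
    omega
  have hcap : ∑ x ∈ Q.M, N x + 1 ≤ k := by
    have h1 : U.card < (X \ Q.M).card := by
      apply Finset.card_lt_card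
      refine ⟨hUsub, fun h => ?_⟩
      have h2 : Q.r0 ∈ U := h (Finset.mem_sdiff.mpr ⟨Q.r0_X, Q.r0_nM⟩)
      rw [Finset.mem_biUnion] at h2
      obtain ⟨x, hx, hr⟩ := h2
      exact Q.r0_nP x hx hr
    omega
  have hNpos : ∀ x ∈ Q.M, 0 < N x := by
    intro x hx
    have := (Q.P_card x hx).1
    omega
  -- the recursion
  let vv : V → (V → ℤ) → V → ℤ := fun x w r => if r ∈ Q.P x then w (Q.par r) else 0
  let res : V → (V → ℤ) → V → ℤ := fun x w c =>
    if c = Q.last x then ρ x (w (Q.par x)) (vv x w) else w (Q.par x) + Q.num c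
  let lift : V → ℤ → ℤ := fun x s => off x + (s - off x) % (N x : ℤ)
  obtain ⟨u, hu⟩ := rec_exists Q.μ (fun y w =>
    if y = Q.y0 then (k : ℤ) - 1 else lift (Q.par y) (res (Q.par y) w y))
  have hu0 : u Q.y0 = (k : ℤ) - 1 := by
    rw [hu]
    simp
  have huc : ∀ x ∈ Q.M, ∀ c ∈ Q.ch x, u c = lift x (res x u c) := by
    intro x hx c hc
    obtain ⟨hcX, hcy, hcp⟩ := Q.ch_spec x hx c hc
    rw [hu]
    simp only [if_neg hcy, hcp]
    congr 1
    have h1 : Q.μ (Q.par x) < Q.μ c := Q.μ_par x hx c hc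
    simp only [res]
    by_cases hcl : c = Q.last x
    · rw [if_pos hcl, if_pos hcl, if_pos h1]
      congr 1
      funext r
      simp only [vv]
      by_cases hr : r ∈ Q.P x
      · rw [if_pos hr, if_pos hr]
        have h3 := Q.μ_P x hx r hr
        rw [← hcl] at h3
        rw [if_pos h3]
      · rw [if_neg hr, if_neg hr]
    · rw [if_neg hcl, if_neg hcl, if_pos h1]
  have hlift1 : ∀ x ∈ Q.M, ∀ s, (off x : ℤ) ≤ lift x s ∧ lift x s < off x + N x := by
    intro x hx s
    have h0 := hNpos x hx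
    have h1 := Int.emod_nonneg (s - off x) (by omega : (N x : ℤ) ≠ 0)
    have h2 := Int.emod_lt_of_pos (s - off x) (by omega : (0 : ℤ) < N x)
    simp only [lift]
    omega
  have hlift2 : ∀ x s, lift x s ≡ s [ZMOD N x] := by
    intro x s
    simp only [lift]
    have h1 : (s - off x) % (N x : ℤ) ≡ s - off x [ZMOD N x] := Int.mod_modEq _ _
    have h2 := h1.add_left (off x : ℤ)
    have e1 : (off x : ℤ) + (s - off x) = s := by ring
    rwa [e1] at h2
  have hures : ∀ x ∈ Q.M, ∀ c ∈ Q.ch x, u c ≡ res x u c [ZMOD N x] := by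
    intro x hx c hc
    rw [huc x hx c hc]
    exact hlift2 _ _
  have hu_last : ∀ x ∈ Q.M, u (Q.last x) ≡ ρ x (u (Q.par x)) (vv x u) [ZMOD N x] := by
    intro x hx
    have := hures x hx _ (Q.last_mem x hx)
    simpa [res] using this
  have hu_num : ∀ x ∈ Q.M, ∀ c ∈ Q.ch x, c ≠ Q.last x →
      u c ≡ u (Q.par x) + Q.num c [ZMOD N x] := by
    intro x hx c hc hne
    have := hures x hx c hc
    simpa [res, hne] using this
  -- small integers congruent mod N are equal
  have hsmall : ∀ (x : V) (s t : ℤ), |s - t| < N x → s ≡ t [ZMOD N x] → s = t := by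
    intro x s t hst h
    obtain ⟨q, hq⟩ := h.symm.dvd
    have hq0 : q = 0 := by
      by_contra hne
      have : (N x : ℤ) ≤ |(N x : ℤ) * q| := by
        rw [abs_mul]
        have h2 : 1 ≤ |q| := Int.one_le_abs hne
        have h3 : (0 : ℤ) ≤ N x := by positivity
        rw [abs_of_nonneg h3]
        nlinarith
      rw [← hq] at this
      omega
    rw [hq0] at hq
    omega
  have hNbig : ∀ x ∈ Q.M, (Q.ch x).card + 1 ≤ N x := by
    intro x hx
    have := (Q.P_card x hx).1
    omega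
  -- two children of the same main have different residues
  have hchild : ∀ x ∈ Q.M, ∀ c ∈ Q.ch x, ∀ c' ∈ Q.ch x, u c ≡ u c' [ZMOD N x] → c = c' := by
    have aux : ∀ x ∈ Q.M, ∀ c ∈ Q.ch x, c ≠ Q.last x → ¬ u c ≡ u (Q.last x) [ZMOD N x] := by
      intro x hx c hc hne h
      have h1 := (hu_num x hx c hc hne).symm.trans (h.trans (hu_last x hx))
      have h2 := Q.num_spec x hx c hc hne
      exact (hρa x _ _ hx).1 (Q.num c) (by omega) h1.symm
    intro x hx c hc c' hc' h
    by_cases h1 : c = Q.last x <;> by_cases h2 : c' = Q.last x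
    · rw [h1, h2]
    · rw [h1] at h
      exact absurd h.symm (aux x hx c' hc' h2)
    · rw [h2] at h
      exact absurd h (aux x hx c hc h1)
    · have h3 := (hu_num x hx c hc h1).symm.trans (h.trans (hu_num x hx c' hc' h2))
      have h4 := Int.ModEq.add_left_cancel' _ h3
      have b1 := Q.num_spec x hx c hc h1
      have b2 := Q.num_spec x hx c' hc' h2
      have b3 := hNbig x hx
      have h5 := hsmall x _ _ (by rw [abs_lt]; constructor <;> omega) h4
      exact Q.num_inj x hx c hc c' hc' h1 h2 (by exact_mod_cast h5)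
  have hparch : ∀ x ∈ Q.M, ∀ c ∈ Q.ch x, ¬ u (Q.par x) ≡ u c [ZMOD N x] := by
    intro x hx c hc h
    by_cases h1 : c = Q.last x
    · rw [h1] at h
      have h2 := h.trans (hu_last x hx)
      have b3 := (Q.P_card x hx).2
      refine (hρa x (u (Q.par x)) (vv x u) hx).1 0 (by omega) ?_
      simpa using h2.symm
    · have h2 := h.trans (hu_num x hx c hc h1)
      have b1 := Q.num_spec x hx c hc h1
      have b3 := hNbig x hx
      have h3 : (0 : ℤ) ≡ Q.num c [ZMOD N x] := by
        have := h2.sub_left (u (Q.par x))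
        have e1 : u (Q.par x) - u (Q.par x) = 0 := by ring
        have e2 : u (Q.par x) - (u (Q.par x) + Q.num c) = -(Q.num c : ℤ) := by ring
        rw [e1, e2] at this
        have := this.neg
        simpa using this
      have h4 := hsmall x _ _ (by rw [abs_lt]; constructor <;> omega) h3
      omega
  -- heads
  let inP : V → V → Prop := fun x r => x ∈ Q.M ∧ r ∈ Q.P x
  let head : V → V := fun v => if h : ∃ x, inP x v then h.choose else v
  let blk : V → ℕ := fun v => if v ∈ Q.M then N v else 1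
  let av : V → ℤ := fun v => if ∃ x, inP x v then a' (head v) (u (Q.par (head v))) (vv (head v) u) v
    else 0
  have headP : ∀ x r, x ∈ Q.M → r ∈ Q.P x → head r = x := by
    intro x r hx hr
    have h : ∃ x, inP x r := ⟨x, hx, hr⟩
    simp only [head, dif_pos h]
    exact Q.P_disj _ h.choose_spec.1 x hx r h.choose_spec.2 hr
  have headN : ∀ v, (¬ ∃ x, inP x v) → head v = v := by
    intro v h
    simp only [head, dif_neg h]
  have noP_M : ∀ v ∈ Q.M, ¬ ∃ x, inP x v := by
    rintro v hv ⟨x, hx, hr⟩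
    exact (Q.P_spec x hx v hr).2.1 hv
  -- the three kinds of left vertices
  have kinds : ∀ v ∈ X, (v ∈ Q.M ∧ head v = v ∧ av v = 0) ∨
      (∃ x ∈ Q.M, v ∈ Q.P x ∧ head v = x ∧ av v = a' x (u (Q.par x)) (vv x u) v) ∨
      (v ∉ Q.M ∧ head v = v ∧ av v = 0) := by
    intro v _
    by_cases h : ∃ x, inP x v
    · right
      left
      obtain ⟨x, hx, hr⟩ := h
      have h1 := headP x v hx hr
      refine ⟨x, hx, hr, h1, ?_⟩
      have h2 : ∃ x, inP x v := ⟨x, hx, hr⟩
      simp only [av, if_pos h2, h1]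
    · have h1 := headN v h
      have h2 : av v = 0 := by simp only [av, if_neg h]
      by_cases hv : v ∈ Q.M
      · exact Or.inl ⟨hv, h1, h2⟩
      · exact Or.inr (Or.inr ⟨hv, h1, h2⟩)
  have blkM : ∀ x ∈ Q.M, blk x = N x := fun x hx => if_pos hx
  have blkN : ∀ x, x ∉ Q.M → blk x = 1 := fun x hx => if_neg hx
  have hPv : ∀ x ∈ Q.M, ∀ r ∈ Q.P x, vv x u r = u (Q.par r) := by
    intro x _ r hr
    simp only [vv, if_pos hr]
  have hPadj : ∀ x ∈ Q.M, ∀ r ∈ Q.P x, ∀ y, T.Adj r y → y = Q.par r := by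
    intro x hx r hr y hy
    have := Q.P_spec x hx r hr
    exact Q.leaf_adj r this.1 this.2.1 y _ hy this.2.2
  apply criterion T hT X hbip m k hm (by omega) head blk
  · -- divisibility
    intro v hv
    rcases kinds v hv with ⟨h1, h2, _⟩ | ⟨x, hx, _, h2, _⟩ | ⟨h1, h2, _⟩
    · rw [h2, blkM v h1]
      exact hN v h1
    · rw [h2, blkM x hx]
      exact hN x hx
    · rw [h2, blkN v h1]
      exact one_dvd _
  · -- injectivity on the left
    show ∀ x ∈ X, ∀ x' ∈ X, head x = head x' → av x ≡ av x' [ZMOD blk (head x)] → x = x'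
    intro v hv v' hv' hh hav
    rcases kinds v hv with ⟨h1, h2, h3⟩ | ⟨x, hx, h1, h2, h3⟩ | ⟨h1, h2, h3⟩ <;>
    rcases kinds v' hv' with ⟨h1', h2', h3'⟩ | ⟨x', hx', h1', h2', h3'⟩ | ⟨h1', h2', h3'⟩
    · rw [h2, h2'] at hh
      exact hh
    · rw [h2, h2'] at hh
      rw [h2, h3, h3', blkM v h1] at hav
      subst hh
      exact absurd hav.symm ((hρa v _ _ h1).2.1 v' h1')
    · rw [h2, h2'] at hh
      exact hh
    · rw [h2, h2'] at hh
      rw [h2, h3, h3', blkM x hx] at hav
      subst hh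
      exact absurd hav ((hρa x _ _ hx).2.1 v h1)
    · rw [h2, h2'] at hh
      subst hh
      rw [h2, h3, h3', blkM x hx] at hav
      exact (hρa x _ _ hx).2.2.1 v h1 v' h1' hav
    · rw [h2, h2'] at hh
      rw [hh] at hx
      exact absurd hx h1'
    · rw [h2, h2'] at hh
      exact hh
    · rw [h2, h2'] at hh
      rw [← hh] at hx'
      exact absurd hx' h1
    · rw [h2, h2'] at hh
      exact hh
  · -- injectivity on the right
    show ∀ y ∉ X, ∀ y' ∉ X, u y ≡ u y' [ZMOD k] → y = y'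
    have hk0 : (0 : ℤ) < k := by omega
    have hpos : ∀ x ∈ Q.M, ∀ c ∈ Q.ch x, (off x : ℤ) ≤ u c ∧ u c < off x + N x := by
      intro x hx c hc
      rw [huc x hx c hc]
      exact hlift1 x hx _
    have hrange : ∀ x ∈ Q.M, (off x : ℤ) + N x ≤ k - 1 := by
      intro x hx
      have := hoff1 x hx
      omega
    have hub : ∀ y ∉ X, 0 ≤ u y ∧ u y < k := by
      intro y hy
      by_cases h : y = Q.y0
      · rw [h, hu0]
        omega
      · obtain ⟨h1, h2⟩ := Q.cover y hy h
        have h3 := hpos _ h1 y h2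
        have h4 := hrange _ h1
        omega
    intro y hy y' hy' h
    have e : u y = u y' := by
      have b1 := hub y hy
      have b2 := hub y' hy'
      have h1 : u y % (k : ℤ) = u y' % (k : ℤ) := h
      rwa [Int.emod_eq_of_lt b1.1 b1.2, Int.emod_eq_of_lt b2.1 b2.2] at h1
    by_cases h1 : y = Q.y0 <;> by_cases h2 : y' = Q.y0
    · rw [h1, h2]
    · obtain ⟨h3, h4⟩ := Q.cover y' hy' h2
      have h5 := hpos _ h3 y' h4
      have h6 := hrange _ h3
      rw [h1, hu0] at e
      omega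
    · obtain ⟨h3, h4⟩ := Q.cover y hy h1
      have h5 := hpos _ h3 y h4
      have h6 := hrange _ h3
      rw [h2, hu0] at e
      omega
    · obtain ⟨h3, h4⟩ := Q.cover y hy h1
      obtain ⟨h3', h4'⟩ := Q.cover y' hy' h2
      have h5 := hpos _ h3 y h4
      have h5' := hpos _ h3' y' h4'
      by_cases hpp : Q.par y = Q.par y'
      · rw [← hpp] at h4'
        apply hchild _ h3 y h4 y' h4'
        rw [e]
      · rcases hoff2 _ h3 _ h3' hpp with h | h <;> omega
  · -- labels
    show ∀ x ∈ X, ∀ x' ∈ X, ∀ y y', T.Adj x y → T.Adj x' y' → head x = head x' →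
      av x - u y ≡ av x' - u y' [ZMOD blk (head x)] → x = x' ∧ y = y'
    -- a main against itself
    have mm : ∀ x ∈ Q.M, ∀ y y', T.Adj x y → T.Adj x y' →
        (0 : ℤ) - u y ≡ 0 - u y' [ZMOD N x] → y = y' := by
      intro x hx y y' hy hy' h
      have h' : u y ≡ u y' [ZMOD N x] := by
        have := h.neg
        simpa using this
      rw [Q.adj_iff x hx] at hy hy'
      rcases hy with rfl | hy <;> rcases hy' with rfl | hy'
      · rfl
      · exact absurd h' (hparch x hx y' hy')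
      · exact absurd h'.symm (hparch x hx y hy)
      · exact hchild x hx y hy y' hy' h'
    -- a main against a padding leaf
    have mp : ∀ x ∈ Q.M, ∀ r ∈ Q.P x, ∀ y, T.Adj x y →
        ¬ (0 : ℤ) - u y ≡ a' x (u (Q.par x)) (vv x u) r - u (Q.par r) [ZMOD N x] := by
      intro x hx r hr y hy h
      have hs := hρa x (u (Q.par x)) (vv x u) hx
      rw [← hPv x hx r hr] at h
      rw [Q.adj_iff x hx] at hy
      have b3 := (Q.P_card x hx).2
      rcases hy with rfl | hy
      · apply hs.2.2.2.2.1 r hr 0 (by omega)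
        simpa using h.symm
      · by_cases hl : y = Q.last x
        · apply hs.2.2.2.2.2 r hr
          have h1 := (hu_last x hx).neg
          rw [hl] at h
          have h2 := h.symm
          rw [zero_sub] at h2
          exact h2.trans h1
        · have b1 := Q.num_spec x hx y hy hl
          apply hs.2.2.2.2.1 r hr (Q.num y) (by omega)
          have h1 := (hu_num x hx y hy hl).neg
          have h2 := h.symm
          rw [zero_sub] at h2
          exact h2.trans h1
    intro v hv v' hv' y y' hy hy' hh hlab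
    rcases kinds v hv with ⟨h1, h2, h3⟩ | ⟨x, hx, h1, h2, h3⟩ | ⟨h1, h2, h3⟩ <;>
    rcases kinds v' hv' with ⟨h1', h2', h3'⟩ | ⟨x', hx', h1', h2', h3'⟩ | ⟨h1', h2', h3'⟩
    · rw [h2, h2'] at hh
      subst hh
      rw [h2, h3, blkM v h1] at hlab
      exact ⟨rfl, mm v h1 y y' hy hy' hlab⟩
    · rw [h2, h2'] at hh
      subst hh
      rw [h2, h3, h3', blkM v h1, hPadj v h1 v' h1' y' hy'] at hlab
      exact absurd hlab (mp v h1 v' h1' y hy)
    · rw [h2, h2'] at hh
      subst hh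
      exact absurd h1 h1'
    · rw [h2, h2'] at hh
      subst hh
      rw [h2, h3, h3', blkM x hx, hPadj x hx v h1 y hy] at hlab
      exact absurd hlab.symm (mp x hx v h1 y' hy')
    · rw [h2, h2'] at hh
      subst hh
      rw [h2, h3, h3', blkM x hx, hPadj x hx v h1 y hy, hPadj x hx v' h1' y' hy',
        ← hPv x hx v h1, ← hPv x hx v' h1'] at hlab
      have h5 := (hρa x _ _ hx).2.2.2.1 v h1 v' h1' hlab
      subst h5
      exact ⟨rfl, (hPadj x hx v h1 y hy).trans (hPadj x hx v h1 y' hy').symm⟩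
    · rw [h2, h2'] at hh
      rw [hh] at hx
      exact absurd hx h1'
    · rw [h2, h2'] at hh
      subst hh
      exact absurd h1' h1
    · rw [h2, h2'] at hh
      rw [← hh] at hx'
      exact absurd hx' h1
    · rw [h2, h2'] at hh
      subst hh
      exact ⟨rfl, Q.leaf_adj v hv h1 y y' hy hy'⟩
  · -- number of left positions
    have himg : X.image head = X \ U := by
      ext z
      rw [Finset.mem_image, Finset.mem_sdiff]
      constructor
      · rintro ⟨v, hv, rfl⟩
        rcases kinds v hv with ⟨h1, h2, _⟩ | ⟨x, hx, h1, h2, _⟩ | ⟨h1, h2, _⟩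
        · rw [h2]
          refine ⟨hv, fun h => ?_⟩
          exact (Finset.mem_sdiff.mp (hUsub h)).2 h1
        · rw [h2]
          refine ⟨Q.M_sub hx, fun h => ?_⟩
          exact (Finset.mem_sdiff.mp (hUsub h)).2 hx
        · rw [h2]
          refine ⟨hv, fun h => ?_⟩
          rw [Finset.mem_biUnion] at h
          obtain ⟨x, hx, hr⟩ := h
          rw [headP x v hx hr] at h2
          rw [h2] at hx
          exact h1 hx
      · rintro ⟨hz, hzU⟩
        refine ⟨z, hz, headN z ?_⟩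
        rintro ⟨x, hx, hr⟩
        exact hzU (Finset.mem_biUnion.mpr ⟨x, hx, hr⟩)
    rw [himg]
    have hMsub : Q.M ⊆ X \ U := by
      intro x hx
      rw [Finset.mem_sdiff]
      exact ⟨Q.M_sub hx, fun h => (Finset.mem_sdiff.mp (hUsub h)).2 hx⟩
    rw [← Finset.sum_sdiff hMsub]
    have h1 : ∑ x ∈ Q.M, blk x = ∑ x ∈ Q.M, N x := Finset.sum_congr rfl (fun x hx => blkM x hx)
    have h2 : ∑ x ∈ (X \ U) \ Q.M, blk x = (X \ Q.M).card - U.card := by
      rw [Finset.sum_congr rfl (fun x hx => blkN x (Finset.mem_sdiff.mp hx).2)]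
      rw [← Finset.card_eq_sum_ones]
      have h3 : (X \ U) \ Q.M = (X \ Q.M) \ U := by
        ext z
        simp only [Finset.mem_sdiff]
        tauto
      rw [h3, Finset.card_sdiff_of_subset hUsub]
    rw [h1, h2, add_comm]
    exact hsumN

end Pool.Agent.Lib.MP_7c15de_co
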