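import Mathlib
import Pool.Agent.Lib.MP_7c15de_co.Plan

set_option autoImplicit false

namespace Pool.Agent.Lib.MP_7c15de_co

open Finset

/-- Parent function of a rooted tree. -/
theorem parent_exists {V : Type} [Fintype V] (T : SimpleGraph V) (hT : T.IsTree) (r : V) :
    ∃ par : V → V, par r = r ∧ (∀ v, v ≠ r → T.Adj v (par v) ∧ T.dist r v = T.dist r (par v) + 1) ∧
      (∀ a b, T.Adj a b → (a ≠ r ∧ par a = b) ∨ (b ≠ r ∧ par b = a)) := by
  classical
  have hex : ∀ v, v ≠ r → ∃ w, T.Adj v w ∧ T.dist r v = T.dist r w + 1 := by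
    intro v hv
    obtain ⟨p, hp⟩ := hT.1.exists_walk_length_eq_dist r v
    have hnil : ¬ p.Nil := by
      intro h
      exact hv (h.eq).symm
    refine ⟨p.penultimate, (p.adj_penultimate hnil).symm, ?_⟩
    have hadj : T.Adj p.penultimate v := p.adj_penultimate hnil
    rcases hT.dist_eq_dist_add_one_of_adj r hadj with h | h
    · exfalso
      have h1 : T.dist r p.penultimate ≤ p.dropLast.length := SimpleGraph.dist_le _
      have h2 : p.dropLast.length + 1 = p.length := by
        have := SimpleGraph.Walk.length_dropLast_add_one hnil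
        exact this
      omega
    · exact h
  have huniq : ∀ v w w', T.Adj v w → T.Adj v w' → T.dist r v = T.dist r w + 1 →
      T.dist r v = T.dist r w' + 1 → w = w' := by
    intro v w w' h h' hd hd'
    obtain ⟨p, hp⟩ := hT.1.exists_walk_length_eq_dist r w
    obtain ⟨p', hp'⟩ := hT.1.exists_walk_length_eq_dist r w'
    have hq : (p.concat h.symm).IsPath := by
      apply SimpleGraph.Walk.isPath_of_length_eq_dist
      rw [SimpleGraph.Walk.length_concat]
      omega
    have hq' : (p'.concat h'.symm).IsPath := by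
      apply SimpleGraph.Walk.isPath_of_length_eq_dist
      rw [SimpleGraph.Walk.length_concat]
      omega
    have h1 := (hT.existsUnique_path r v).unique hq hq'
    have h2 := congrArg SimpleGraph.Walk.penultimate h1
    simpa using h2
  let par : V → V := fun v => if h : v ≠ r then (hex v h).choose else r
  have hpar : ∀ v, v ≠ r → T.Adj v (par v) ∧ T.dist r v = T.dist r (par v) + 1 := by
    intro v hv
    have : par v = (hex v hv).choose := dif_pos hv
    rw [this]
    exact (hex v hv).choose_spec
  refine ⟨par, ?_, hpar, ?_⟩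
  · simp [par]
  · intro a b hab
    rcases hT.dist_eq_dist_add_one_of_adj r hab with h | h
    · left
      have ha : a ≠ r := by
        rintro rfl
        rw [SimpleGraph.dist_self] at h
        omega
      refine ⟨ha, ?_⟩
      have h1 := hpar a ha
      exact huniq a _ _ h1.1 hab h1.2 h
    · right
      have hb : b ≠ r := by
        rintro rfl
        rw [SimpleGraph.dist_self] at h
        omega
      refine ⟨hb, ?_⟩
      have h1 := hpar b hb
      exact huniq b _ _ h1.1 hab.symm h1.2 h

/-- Rank of an element of a finite set, for an injective function. -/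
theorem rank_spec {V : Type} [DecidableEq V] (s : Finset V) (f : V → ℕ)
    (hf : ∀ a ∈ s, ∀ b ∈ s, f a = f b → a = b) :
    (∀ c ∈ s, 1 ≤ (s.filter (fun z => f z ≤ f c)).card ∧
      (s.filter (fun z => f z ≤ f c)).card ≤ s.card) ∧
    ∀ c ∈ s, ∀ c' ∈ s, (s.filter (fun z => f z ≤ f c)).card =
      (s.filter (fun z => f z ≤ f c')).card → c = c' := by
  have key : ∀ c ∈ s, ∀ c' ∈ s, f c < f c' → (s.filter (fun z => f z ≤ f c)).card <
      (s.filter (fun z => f z ≤ f c')).card := by
    intro c hc c' hc' h
    apply Finset.card_lt_card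
    refine ⟨?_, ?_⟩
    · intro z hz
      rw [Finset.mem_filter] at hz ⊢
      exact ⟨hz.1, hz.2.trans h.le⟩
    · intro hsub
      have h1 : c' ∈ s.filter (fun z => f z ≤ f c) :=
        hsub (Finset.mem_filter.mpr ⟨hc', le_rfl⟩)
      rw [Finset.mem_filter] at h1
      omega
  refine ⟨?_, ?_⟩
  · intro c hc
    refine ⟨?_, Finset.card_filter_le _ _⟩
    rw [Nat.one_le_iff_ne_zero, ← Nat.pos_iff_ne_zero, Finset.card_pos]
    exact ⟨c, Finset.mem_filter.mpr ⟨hc, le_rfl⟩⟩
  · intro c hc c' hc' h
    rcases lt_trichotomy (f c) (f c') with h1 | h1 | h1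
    · have := key c hc c' hc' h1
      omega
    · exact hf c hc c' hc' h1
    · have := key c' hc' c hc h1
      omega

/-- Every tree has a plan with respect to its larger colour class. -/
theorem plan_exists {V : Type} [Fintype V] [DecidableEq V] (T : SimpleGraph V)
    [DecidableRel T.Adj] (hT : T.IsTree) (X : Finset V)
    (hbip : ∀ a b, T.Adj a b → (a ∈ X ↔ b ∉ X)) (hXY : Xᶜ.card ≤ X.card)
    (hV : 2 ≤ Fintype.card V) (N : V → ℕ)
    (hN : ∀ x ∈ X, 2 ≤ T.degree x → T.degree x ≤ N x ∧ N x + 2 ≤ 2 * T.degree x) :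
    ∃ Q : Plan T X N, ∀ x ∈ Q.M, 2 ≤ T.degree x := by
  classical
  have hnt : Nontrivial V := by
    rw [← Fintype.one_lt_card_iff_nontrivial]
    omega
  have hdegpos : ∀ v, 0 < T.degree v := by
    intro v
    exact hT.1.preconnected.degree_pos_of_nontrivial v
  -- a leaf in X
  obtain ⟨r0, hr0X, hr0deg⟩ : ∃ r0 ∈ X, T.degree r0 = 1 := by
    by_contra hcon
    push Not at hcon
    have h1 : ∀ x ∈ X, 2 ≤ T.degree x := by
      intro x hx
      have h2 := hdegpos x
      have h3 := hcon x hx
      omega
    have h2 := Finset.card_nsmul_le_sum X (fun x => T.degree x) 2 h1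
    have h3 := sum_deg_class T hT X hbip
    have h4 := Finset.card_compl_add_card X
    rw [smul_eq_mul] at h2
    omega
  obtain ⟨par, hparr, hpar, hadj⟩ := parent_exists T hT r0
  obtain ⟨y0, hy0⟩ : ∃ y0, ∀ y, T.Adj r0 y ↔ y = y0 := by
    rw [← SimpleGraph.card_neighborFinset_eq_degree, Finset.card_eq_one] at hr0deg
    obtain ⟨y0, hy0⟩ := hr0deg
    refine ⟨y0, fun y => ?_⟩
    rw [← SimpleGraph.mem_neighborFinset, hy0, Finset.mem_singleton]
  have hy0adj : T.Adj r0 y0 := (hy0 y0).mpr rfl
  have hy0X : y0 ∉ X := (hbip r0 y0 hy0adj).mp hr0X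
  have hy0r : y0 ≠ r0 := fun h => hy0X (h ▸ hr0X)
  have hpary0 : par y0 = r0 := by
    rcases hadj r0 y0 hy0adj with h | h
    · exact absurd rfl h.1
    · exact h.2
  have hparr0 : ∀ c, c ≠ r0 → par c = r0 → c = y0 := by
    intro c hc h
    have := (hpar c hc).1
    rw [h] at this
    exact (hy0 c).mp this.symm
  set dep : V → ℕ := fun v => T.dist r0 v with hdep
  have hdepr : ∀ v, v ≠ r0 → dep v = dep (par v) + 1 := fun v hv => (hpar v hv).2
  have hdeple : ∀ (i : ℕ) v, dep (par^[i] v) ≤ dep v := by
    intro i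
    induction i with
    | zero => intro v; simp
    | succ i ih =>
      intro v
      rw [Function.iterate_succ_apply]
      refine (ih (par v)).trans ?_
      by_cases hv : v = r0
      · rw [hv, hparr]
      · have := hdepr v hv
        omega
  have hiter_r : ∀ i : ℕ, par^[i] r0 = r0 := fun i => Function.iterate_fixed hparr i
  let chl : V → Finset V := fun x => Finset.univ.filter (fun c => c ≠ r0 ∧ par c = x)
  have mem_chl : ∀ x c, c ∈ chl x ↔ c ≠ r0 ∧ par c = x := by
    intro x c
    simp [chl]
  let Desc : V → V → Prop := fun v w => ∃ i : ℕ, par^[i] w = v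
  have desc_refl : ∀ v, Desc v v := fun v => ⟨0, rfl⟩
  have desc_trans : ∀ a b c, Desc a b → Desc b c → Desc a c := by
    rintro a b c ⟨i, hi⟩ ⟨j, hj⟩
    refine ⟨i + j, ?_⟩
    rw [Function.iterate_add_apply, hj, hi]
  have desc_par : ∀ v, Desc (par v) v := fun v => ⟨1, rfl⟩
  have chl_r0 : chl r0 ≠ ∅ := by
    intro h
    have : y0 ∈ chl r0 := (mem_chl r0 y0).mpr ⟨hy0r, hpary0⟩
    rw [h] at this
    simp at this
  -- a descendant without children
  have leaf_desc : ∀ v, v ≠ r0 → ∃ w, chl w = ∅ ∧ Desc v w := by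
    intro v hv
    obtain ⟨w, hw, hmax⟩ := Finset.exists_max_image (Finset.univ.filter (fun w => Desc v w)) dep
      ⟨v, Finset.mem_filter.mpr ⟨Finset.mem_univ v, desc_refl v⟩⟩
    rw [Finset.mem_filter] at hw
    refine ⟨w, ?_, hw.2⟩
    by_contra hne
    obtain ⟨c, hc⟩ := Finset.nonempty_iff_ne_empty.mpr hne
    rw [mem_chl] at hc
    have h1 : Desc v c := by
      apply desc_trans _ w _ hw.2
      rw [← hc.2]
      exact desc_par c
    have h2 := hmax c (Finset.mem_filter.mpr ⟨Finset.mem_univ c, h1⟩)
    have h3 := hdepr c hc.1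
    rw [hc.2] at h3
    omega
  have leaf_self : ∀ v w, chl v = ∅ → Desc v w → w = v := by
    rintro v w hv ⟨i, hi⟩
    rcases Nat.eq_zero_or_pos i with h | h
    · rw [h] at hi
      exact hi
    · exfalso
      obtain ⟨j, rfl⟩ : ∃ j, i = j + 1 := ⟨i - 1, by omega⟩
      rw [Function.iterate_succ_apply'] at hi
      by_cases hz : par^[j] w = r0
      · rw [hz, hparr] at hi
        rw [← hi] at hv
        exact chl_r0 hv
      · have : par^[j] w ∈ chl v := (mem_chl _ _).mpr ⟨hz, hi⟩
        rw [hv] at this
        simp at this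
  -- the leaves in X and the indices
  let LX : Finset V := X.filter (fun w => chl w = ∅)
  let eX : LX ≃ Fin LX.card := LX.equivFin
  let eV : V ≃ Fin (Fintype.card V) := Fintype.equivFin V
  let idx : V → ℕ := fun w => if h : w ∈ LX then (eX ⟨w, h⟩ : ℕ) + 1
    else LX.card + 1 + (eV w : ℕ)
  have idx1 : ∀ w (h : w ∈ LX), idx w = (eX ⟨w, h⟩ : ℕ) + 1 := fun w h => dif_pos h
  have idx2 : ∀ w, w ∉ LX → idx w = LX.card + 1 + (eV w : ℕ) := fun w h => dif_neg h
  have idx_inj : ∀ w w', idx w = idx w' → w = w' := by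
    intro w w' h
    by_cases h1 : w ∈ LX <;> by_cases h2 : w' ∈ LX
    · rw [idx1 w h1, idx1 w' h2] at h
      have h3 : eX ⟨w, h1⟩ = eX ⟨w', h2⟩ := by
        ext
        omega
      exact congrArg Subtype.val (eX.injective h3)
    · rw [idx1 w h1, idx2 w' h2] at h
      have := (eX ⟨w, h1⟩).isLt
      omega
    · rw [idx2 w h1, idx1 w' h2] at h
      have := (eX ⟨w', h2⟩).isLt
      omega
    · rw [idx2 w h1, idx2 w' h2] at h
      apply eV.injective
      ext
      omega
  have idx_pos : ∀ w, 1 ≤ idx w := by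
    intro w
    by_cases h1 : w ∈ LX
    · rw [idx1 w h1]
      omega
    · rw [idx2 w h1]
      omega
  -- the order of exploration
  let tset : V → Set ℕ := fun v => {j | ∃ w, chl w = ∅ ∧ Desc v w ∧ idx w = j}
  let t : V → ℕ := fun v => sInf (tset v)
  have t_le : ∀ v w, chl w = ∅ → Desc v w → t v ≤ idx w :=
    fun v w h1 h2 => Nat.sInf_le ⟨w, h1, h2, rfl⟩
  have t_mem : ∀ v, v ≠ r0 → ∃ w, chl w = ∅ ∧ Desc v w ∧ idx w = t v := by
    intro v hv
    obtain ⟨w, h1, h2⟩ := leaf_desc v hv
    have : t v ∈ tset v := Nat.sInf_mem ⟨idx w, w, h1, h2, rfl⟩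
    exact this
  have t_mono : ∀ v v', v' ≠ r0 → Desc v v' → t v ≤ t v' := by
    intro v v' hv' h
    obtain ⟨w, h1, h2, h3⟩ := t_mem v' hv'
    rw [← h3]
    exact t_le v w h1 (desc_trans _ _ _ h h2)
  have t_pos : ∀ v, v ≠ r0 → 1 ≤ t v := by
    intro v hv
    obtain ⟨w, _, _, h3⟩ := t_mem v hv
    rw [← h3]
    exact idx_pos w
  have t_leaf : ∀ w, chl w = ∅ → t w = idx w := by
    intro w hw
    have hwr : w ≠ r0 := fun h => chl_r0 (h ▸ hw)
    obtain ⟨w', h1, h2, h3⟩ := t_mem w hwr
    rw [leaf_self w w' hw h2] at h3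
    exact h3.symm
  have comp : ∀ c c', c ≠ r0 → c' ≠ r0 → t c = t c' →
      (∃ i, par^[i] c = c') ∨ (∃ i, par^[i] c' = c) := by
    intro c c' hc hc' h
    obtain ⟨w, _, ⟨i, hi⟩, h3⟩ := t_mem c hc
    obtain ⟨w', _, ⟨j, hj⟩, h3'⟩ := t_mem c' hc'
    have hww : w = w' := idx_inj _ _ (by rw [h3, h3', h])
    subst hww
    rcases le_total i j with hij | hij
    · left
      refine ⟨j - i, ?_⟩
      rw [← hi, ← Function.iterate_add_apply, ← hj]
      congr 1
      omega
    · right
      refine ⟨i - j, ?_⟩
      rw [← hj, ← Function.iterate_add_apply, ← hi]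
      congr 1
      omega
  -- injectivity on the tops
  have top_aux : ∀ c c', c ≠ r0 → c' ≠ r0 → par c ≠ r0 → t (par c) < t c → t c = t c' →
      (∃ i, par^[i] c = c') → c = c' := by
    rintro c c' hc hc' hpc hlt h ⟨i, hi⟩
    rcases Nat.eq_zero_or_pos i with h0 | h0
    · rw [h0] at hi
      exact hi
    · exfalso
      obtain ⟨j, rfl⟩ : ∃ j, i = j + 1 := ⟨i - 1, by omega⟩
      rw [Function.iterate_succ_apply] at hi
      have h1 : t c' ≤ t (par c) := t_mono c' (par c) hpc ⟨j, hi⟩
      omega
  have top_inj : ∀ c c', c ≠ r0 → c' ≠ r0 → par c ≠ r0 → par c' ≠ r0 → t (par c) < t c →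
      t (par c') < t c' → t c = t c' → c = c' := by
    intro c c' hc hc' hpc hpc' hlt hlt' h
    rcases comp c c' hc hc' h with h1 | h1
    · exact top_aux c c' hc hc' hpc hlt h h1
    · exact (top_aux c' c hc' hc hpc' hlt' h.symm h1).symm
  have sib_aux : ∀ c c', c ≠ r0 → c' ≠ r0 → par c = par c' → (∃ i, par^[i] c = c') → c = c' := by
    rintro c c' hc hc' hpp ⟨i, hi⟩
    rcases Nat.eq_zero_or_pos i with h0 | h0
    · rw [h0] at hi
      exact hi
    · exfalso
      obtain ⟨j, rfl⟩ : ∃ j, i = j + 1 := ⟨i - 1, by omega⟩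
      rw [Function.iterate_succ_apply] at hi
      have h1 := hdeple j (par c)
      rw [hi] at h1
      have h2 := hdepr c' hc'
      rw [← hpp] at h2
      omega
  have sib_inj : ∀ c c', c ≠ r0 → c' ≠ r0 → par c = par c' → t c = t c' → c = c' := by
    intro c c' hc hc' hpp h
    rcases comp c c' hc hc' h with h1 | h1
    · exact sib_aux c c' hc hc' hpp h1
    · exact (sib_aux c' c hc' hc hpp.symm h1).symm
  have first_ex : ∀ v, v ≠ r0 → chl v ≠ ∅ → ∃ c ∈ chl v, t c = t v := by
    intro v hv hne
    obtain ⟨w, hw, ⟨i, hi⟩, h3⟩ := t_mem v hv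
    rcases Nat.eq_zero_or_pos i with h0 | h0
    · rw [h0] at hi
      exfalso
      apply hne
      rw [← hi]
      exact hw
    · obtain ⟨j, rfl⟩ : ∃ j, i = j + 1 := ⟨i - 1, by omega⟩
      rw [Function.iterate_succ_apply'] at hi
      have hz : par^[j] w ≠ r0 := by
        intro hz
        rw [hz, hparr] at hi
        exact hv hi.symm
      refine ⟨par^[j] w, (mem_chl _ _).mpr ⟨hz, hi⟩, ?_⟩
      apply le_antisymm
      · rw [← h3]
        exact t_le _ w hw ⟨j, rfl⟩
      · apply t_mono _ _ hz
        rw [← hi]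
        exact desc_par _
  -- mains
  let M : Finset V := X.filter (fun x => x ≠ r0 ∧ chl x ≠ ∅)
  have mem_M : ∀ x, x ∈ M ↔ x ∈ X ∧ x ≠ r0 ∧ chl x ≠ ∅ := by
    intro x
    simp [M]
  have mem_LX : ∀ x, x ∈ LX ↔ x ∈ X ∧ chl x = ∅ := by
    intro x
    simp [LX]
  have par_side : ∀ c, c ≠ r0 → (c ∈ X ↔ par c ∉ X) := fun c hc => hbip c _ (hpar c hc).1
  have chl_side : ∀ x ∈ M, ∀ c ∈ chl x, c ∉ X ∧ c ≠ y0 ∧ par c = x := by
    intro x hx c hc
    rw [mem_M] at hx
    rw [mem_chl] at hc
    refine ⟨?_, ?_, hc.2⟩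
    · intro h
      have := (par_side c hc.1).mp h
      rw [hc.2] at this
      exact this hx.1
    · rintro rfl
      rw [hpary0] at hc
      exact hx.2.1 hc.2.symm
  have adj_M : ∀ x, x ≠ r0 → ∀ y, T.Adj x y ↔ (y = par x ∨ y ∈ chl x) := by
    intro x hx y
    constructor
    · intro h
      rcases hadj x y h with h1 | h1
      · exact Or.inl h1.2.symm
      · exact Or.inr ((mem_chl x y).mpr h1)
    · rintro (rfl | h)
      · exact (hpar x hx).1
      · rw [mem_chl] at h
        have := (hpar y h.1).1
        rw [h.2] at this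
        exact this.symm
  have degM : ∀ x, x ≠ r0 → T.degree x = (chl x).card + 1 := by
    intro x hx
    rw [← SimpleGraph.card_neighborFinset_eq_degree]
    have h3 : T.neighborFinset x = insert (par x) (chl x) := by
      ext z
      rw [SimpleGraph.mem_neighborFinset, Finset.mem_insert]
      exact adj_M x hx z
    rw [h3, Finset.card_insert_of_notMem]
    intro hmem
    rw [mem_chl] at hmem
    have h1 := hdepr _ hmem.1
    rw [hmem.2] at h1
    have h2 := hdepr x hx
    omega
  -- the set A of the later children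
  let A : Finset V := Finset.univ.filter (fun c => c ∉ X ∧ c ≠ y0 ∧ t (par c) < t c)
  have mem_A : ∀ c, c ∈ A ↔ c ∉ X ∧ c ≠ y0 ∧ t (par c) < t c := by
    intro c
    simp [A]
  have nX_r : ∀ c, c ∉ X → c ≠ r0 := fun c hc h => hc (h ▸ hr0X)
  have A_par : ∀ c, c ∉ X → c ≠ y0 → par c ∈ M ∧ c ∈ chl (par c) := by
    intro c hc hcy
    have hcr := nX_r c hc
    have h1 : par c ≠ r0 := fun h => hcy (hparr0 c hcr h)
    have h2 : c ∈ chl (par c) := (mem_chl _ _).mpr ⟨hcr, rfl⟩
    refine ⟨?_, h2⟩
    rw [mem_M]
    refine ⟨?_, h1, Finset.ne_empty_of_mem h2⟩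
    by_contra h3
    exact hc ((par_side c hcr).mpr h3)
  have A_inj : ∀ a ∈ A, ∀ b ∈ A, t a = t b → a = b := by
    intro a ha b hb h
    rw [mem_A] at ha hb
    have h1 := A_par a ha.1 ha.2.1
    have h2 := A_par b hb.1 hb.2.1
    rw [mem_M] at h1 h2
    exact top_inj a b (nX_r a ha.1) (nX_r b hb.1) h1.1.2.1 h2.1.2.1 ha.2.2 hb.2.2 h
  have A_card : A.card ≤ LX.card := by
    -- first children
    have hfirst : ∀ x, ∃ c, x ∈ M → c ∈ chl x ∧ t c = t x := by
      intro x
      by_cases hx : x ∈ M
      · have h := (mem_M x).mp hx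
        obtain ⟨c, h1, h2⟩ := first_ex x h.2.1 h.2.2
        exact ⟨c, fun _ => ⟨h1, h2⟩⟩
      · exact ⟨x, fun h => absurd h hx⟩
    choose fc hfc using hfirst
    have h1 : M.image fc ⊆ (Xᶜ.erase y0) \ A := by
      intro c hc
      rw [Finset.mem_image] at hc
      obtain ⟨x, hx, rfl⟩ := hc
      obtain ⟨h1, h2⟩ := hfc x hx
      obtain ⟨h3, h4, h5⟩ := chl_side x hx _ h1
      rw [Finset.mem_sdiff, Finset.mem_erase, Finset.mem_compl, mem_A]
      refine ⟨⟨h4, h3⟩, ?_⟩
      rintro ⟨_, _, h6⟩
      rw [h5, h2] at h6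
      exact lt_irrefl _ h6
    have h2 : (M.image fc).card = M.card := by
      apply Finset.card_image_of_injOn
      intro x hx x' hx' h
      have e1 := (chl_side x hx _ (hfc x hx).1).2.2
      have e2 := (chl_side x' hx' _ (hfc x' hx').1).2.2
      have h' : fc x = fc x' := h
      rw [← e1, ← e2, h']
    have h3 : A ⊆ Xᶜ.erase y0 := by
      intro c hc
      rw [mem_A] at hc
      rw [Finset.mem_erase, Finset.mem_compl]
      exact ⟨hc.2.1, hc.1⟩
    have h4 := Finset.card_le_card h1
    rw [h2, Finset.card_sdiff_of_subset h3] at h4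
    have h5 := Finset.card_le_card h3
    have h6 : (Xᶜ.erase y0).card = Xᶜ.card - 1 :=
      Finset.card_erase_of_mem (Finset.mem_compl.mpr hy0X)
    have h7 : X.card = M.card + LX.card + 1 := by
      have e1 : X = insert r0 (M ∪ LX) := by
        ext z
        rw [Finset.mem_insert, Finset.mem_union, mem_M, mem_LX]
        constructor
        · intro hz
          by_cases hzr : z = r0
          · exact Or.inl hzr
          · by_cases hch : chl z = ∅
            · exact Or.inr (Or.inr ⟨hz, hch⟩)
            · exact Or.inr (Or.inl ⟨hz, hzr, hch⟩)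
        · rintro (h | h | h)
          · rw [h]
            exact hr0X
          · exact h.1
          · exact h.1
      have e2 : r0 ∉ M ∪ LX := by
        rw [Finset.mem_union, mem_M, mem_LX]
        rintro (h | h)
        · exact h.2.1 rfl
        · exact chl_r0 h.2
      have e3 : Disjoint M LX := by
        rw [Finset.disjoint_left]
        intro z hz hz'
        rw [mem_M] at hz
        rw [mem_LX] at hz'
        exact hz.2.2 hz'.2
      have e4 := congrArg Finset.card e1
      rw [Finset.card_insert_of_notMem e2, Finset.card_union_of_disjoint e3] at e4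
      exact e4
    have h8 : 1 ≤ Xᶜ.card := by
      rw [Nat.one_le_iff_ne_zero, ← Nat.pos_iff_ne_zero, Finset.card_pos]
      exact ⟨y0, Finset.mem_compl.mpr hy0X⟩
    omega
  -- ranks in A
  let rk : V → ℕ := fun c => (A.filter (fun z => t z ≤ t c)).card
  obtain ⟨rk1, rk2⟩ := rank_spec A t A_inj
  have rk_lt : ∀ c ∈ A, rk c < t c := by
    intro c hc
    have h1 : (A.filter (fun z => t z ≤ t c)).image t ⊆ Finset.Icc 2 (t c) := by
      intro j hj
      rw [Finset.mem_image] at hj
      obtain ⟨z, hz, rfl⟩ := hj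
      rw [Finset.mem_filter, mem_A] at hz
      rw [Finset.mem_Icc]
      have h2 := (mem_M _).mp (A_par z hz.1.1 hz.1.2.1).1
      have h3 := t_pos (par z) h2.2.1
      omega
    have h2 : ((A.filter (fun z => t z ≤ t c)).image t).card = rk c := by
      apply Finset.card_image_of_injOn
      intro a ha b hb hab
      exact A_inj a (Finset.mem_filter.mp ha).1 b (Finset.mem_filter.mp hb).1 hab
    have h3 := Finset.card_le_card h1
    rw [h2, Nat.card_Icc] at h3
    have h4 := (rk1 c hc).1
    have h5 : 1 ≤ rk c := h4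
    omega
  -- the leaf attached to an element of A
  have hleafOf : ∀ c, ∃ w, c ∈ A → w ∈ LX ∧ idx w = rk c := by
    intro c
    by_cases hc : c ∈ A
    · have h1 := rk1 c hc
      have h2 : rk c - 1 < LX.card := by
        have : 1 ≤ rk c := h1.1
        have h3 : rk c ≤ A.card := h1.2
        omega
      refine ⟨(eX.symm ⟨rk c - 1, h2⟩).1, fun _ => ⟨(eX.symm ⟨rk c - 1, h2⟩).2, ?_⟩⟩
      rw [idx1 _ (eX.symm ⟨rk c - 1, h2⟩).2]
      simp only [Subtype.coe_eta, Equiv.apply_symm_apply]
      have : 1 ≤ rk c := h1.1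
      omega
    · exact ⟨c, fun h => absurd h hc⟩
  choose lf hlf using hleafOf
  have lf_inj : ∀ c ∈ A, ∀ c' ∈ A, lf c = lf c' → c = c' := by
    intro c hc c' hc' h
    apply rk2 c hc c' hc'
    have h1 := (hlf c hc).2
    have h2 := (hlf c' hc').2
    rw [h] at h1
    exact h1.symm.trans h2
  -- how many later children
  have later : ∀ x ∈ M, (chl x).card ≤ ((chl x).filter (fun c => c ∈ A)).card + 1 := by
    intro x hx
    have h1 := Finset.card_filter_add_card_filter_not (s := chl x) (fun c => c ∈ A)
    have h2 : ((chl x).filter (fun c => ¬ c ∈ A)).card ≤ 1 := by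
      rw [Finset.card_le_one]
      intro a ha b hb
      rw [Finset.mem_filter] at ha hb
      have e1 := chl_side x hx a ha.1
      have e2 := chl_side x hx b hb.1
      have hxr := ((mem_M x).mp hx).2.1
      have ta : t a = t x := by
        apply le_antisymm
        · by_contra hcon
          apply ha.2
          rw [mem_A]
          refine ⟨e1.1, e1.2.1, ?_⟩
          rw [e1.2.2]
          omega
        · apply t_mono _ _ (nX_r a e1.1)
          rw [← e1.2.2]
          exact desc_par a
      have tb : t b = t x := by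
        apply le_antisymm
        · by_contra hcon
          apply hb.2
          rw [mem_A]
          refine ⟨e2.1, e2.2.1, ?_⟩
          rw [e2.2.2]
          omega
        · apply t_mono _ _ (nX_r b e2.1)
          rw [← e2.2.2]
          exact desc_par b
      exact sib_inj a b (nX_r a e1.1) (nX_r b e2.1) (e1.2.2.trans e2.2.2.symm) (ta.trans tb.symm)
    omega
  have hQs : ∀ x, ∃ s : Finset V, x ∈ M → s ⊆ (chl x).filter (fun c => c ∈ A) ∧
      N x = (chl x).card + 1 + s.card ∧ s.card + 1 ≤ (chl x).card := by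
    intro x
    by_cases hx : x ∈ M
    · have hx' := (mem_M x).mp hx
      have h1 := degM x hx'.2.1
      have h2 : 1 ≤ (chl x).card := by
        rw [Nat.one_le_iff_ne_zero, ← Nat.pos_iff_ne_zero, Finset.card_pos]
        exact Finset.nonempty_iff_ne_empty.mpr hx'.2.2
      have h3 := hN x hx'.1 (by omega)
      have h4 := later x hx
      obtain ⟨s, hs1, hs2⟩ := Finset.exists_subset_card_eq
        (show N x - T.degree x ≤ ((chl x).filter (fun c => c ∈ A)).card by omega)
      refine ⟨s, fun _ => ⟨hs1, ?_, ?_⟩⟩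
      · omega
      · omega
    · exact ⟨∅, fun h => absurd h hx⟩
  choose Qs hQs using hQs
  -- the last child
  have hlast : ∀ x, ∃ c, x ∈ M → c ∈ chl x ∧ ∀ c' ∈ chl x, t c' ≤ t c := by
    intro x
    by_cases hx : x ∈ M
    · have hx' := (mem_M x).mp hx
      obtain ⟨c, h1, h2⟩ := Finset.exists_max_image (chl x) t
        (Finset.nonempty_iff_ne_empty.mpr hx'.2.2)
      exact ⟨c, fun _ => ⟨h1, h2⟩⟩
    · exact ⟨x, fun h => absurd h hx⟩
  choose last hlast using hlast
  let K : ℕ := ∑ v, dep v + 1
  have hK : ∀ v, dep v < K := by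
    intro v
    have := Finset.single_le_sum (f := dep) (fun z _ => Nat.zero_le _) (Finset.mem_univ v)
    simp only [K]
    omega
  let μ : V → ℕ := fun v => t v * K + dep v
  let num : V → ℕ := fun c =>
    (((chl (par c)).erase (last (par c))).filter (fun z => (eV z : ℕ) ≤ (eV c : ℕ))).card
  have eV_inj : ∀ (s : Finset V), ∀ a ∈ s, ∀ b ∈ s, (eV a : ℕ) = (eV b : ℕ) → a = b := by
    intro s a _ b _ h
    exact eV.injective (Fin.ext h)
  let Q : Plan T X N :=
    { r0 := r0
      y0 := y0
      par := par
      μ := μ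
      M := M
      ch := chl
      last := last
      num := num
      P := fun x => (Qs x).image lf
      M_sub := fun x hx => ((mem_M x).mp hx).1
      y0_nX := hy0X
      r0_X := hr0X
      r0_nM := fun h => ((mem_M r0).mp h).2.1 rfl
      r0_nP := by
        intro x hx h
        rw [Finset.mem_image] at h
        obtain ⟨c, hc, h1⟩ := h
        have h2 := (Finset.mem_filter.mp ((hQs x hx).1 hc)).2
        have h3 := (hlf c h2).1
        rw [h1, mem_LX] at h3
        exact chl_r0 h3.2
      ch_spec := chl_side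
      adj_iff := fun x hx y => adj_M x ((mem_M x).mp hx).2.1 y
      cover := fun y hy hyy => A_par y hy hyy
      last_mem := fun x hx => (hlast x hx).1
      num_spec := by
        intro x hx c hc hne
        have hpc := (chl_side x hx c hc).2.2
        have h1 : c ∈ (chl x).erase (last x) := Finset.mem_erase.mpr ⟨hne, hc⟩
        have h2 := (rank_spec ((chl x).erase (last x)) (fun z => (eV z : ℕ)) (eV_inj _)).1 c h1
        have h3 : ((chl x).erase (last x)).card = (chl x).card - 1 :=
          Finset.card_erase_of_mem (hlast x hx).1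
        simp only [num, hpc]
        have h4 : 1 ≤ (chl x).card := Finset.card_pos.mpr ⟨c, hc⟩
        omega
      num_inj := by
        intro x hx c hc c' hc' hne hne' h
        have hpc := (chl_side x hx c hc).2.2
        have hpc' := (chl_side x hx c' hc').2.2
        have h1 : c ∈ (chl x).erase (last x) := Finset.mem_erase.mpr ⟨hne, hc⟩
        have h1' : c' ∈ (chl x).erase (last x) := Finset.mem_erase.mpr ⟨hne', hc'⟩
        have h2 := (rank_spec ((chl x).erase (last x)) (fun z => (eV z : ℕ)) (eV_inj _)).2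
          c h1 c' h1'
        simp only [num, hpc, hpc'] at h
        exact h2 h
      leaf_adj := by
        intro x hx hxM y y' hy hy'
        by_cases hxr : x = r0
        · rw [hxr] at hy hy'
          rw [hy0] at hy hy'
          rw [hy, hy']
        · have h1 : chl x = ∅ := by
            by_contra h
            exact hxM ((mem_M x).mpr ⟨hx, hxr, h⟩)
          rw [adj_M x hxr, h1] at hy hy'
          simp only [Finset.notMem_empty, or_false] at hy hy'
          rw [hy, hy']
      leaf_ex := by
        intro x hx hxM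
        by_cases hxr : x = r0
        · exact ⟨y0, hxr ▸ hy0adj⟩
        · exact ⟨par x, (hpar x hxr).1⟩
      P_spec := by
        intro x hx r hr
        rw [Finset.mem_image] at hr
        obtain ⟨c, hc, h1⟩ := hr
        have h2 := (Finset.mem_filter.mp ((hQs x hx).1 hc)).2
        have h3 := (hlf c h2).1
        rw [h1, mem_LX] at h3
        refine ⟨h3.1, ?_, ?_⟩
        · intro h
          exact ((mem_M r).mp h).2.2 h3.2
        · apply (hpar r _).1
          rintro rfl
          exact chl_r0 h3.2
      P_disj := by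
        intro x hx x' hx' r hr hr'
        rw [Finset.mem_image] at hr hr'
        obtain ⟨c, hc, h1⟩ := hr
        obtain ⟨c', hc', h1'⟩ := hr'
        have h2 := Finset.mem_filter.mp ((hQs x hx).1 hc)
        have h2' := Finset.mem_filter.mp ((hQs x' hx').1 hc')
        have h3 := lf_inj c h2.2 c' h2'.2 (h1.trans h1'.symm)
        rw [← (chl_side x hx c h2.1).2.2, ← (chl_side x' hx' c' h2'.1).2.2, h3]
      P_card := by
        intro x hx
        have h1 : ((Qs x).image lf).card = (Qs x).card := by
          apply Finset.card_image_of_injOn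
          intro c hc c' hc' h
          have h2 := Finset.mem_filter.mp ((hQs x hx).1 hc)
          have h2' := Finset.mem_filter.mp ((hQs x hx).1 hc')
          exact lf_inj c h2.2 c' h2'.2 h
        rw [h1]
        exact (hQs x hx).2
      μ_par := by
        intro x hx c hc
        have h1 := chl_side x hx c hc
        have hxr := ((mem_M x).mp hx).2.1
        have hxX := ((mem_M x).mp hx).1
        have h2 := hdepr c (nX_r c h1.1)
        rw [h1.2.2] at h2
        have h3 := hdepr x hxr
        have h4 : t (par x) ≤ t c := by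
          apply t_mono _ _ (nX_r c h1.1)
          refine ⟨2, ?_⟩
          rw [Function.iterate_succ_apply, Function.iterate_one, h1.2.2]
        have h5 : t (par x) * K ≤ t c * K := Nat.mul_le_mul_right K h4
        simp only [μ]
        omega
      μ_P := by
        intro x hx r hr
        rw [Finset.mem_image] at hr
        obtain ⟨c, hc, h1⟩ := hr
        have h2 := Finset.mem_filter.mp ((hQs x hx).1 hc)
        have h3 := hlf c h2.2
        rw [h1] at h3
        have h4 := (mem_LX r).mp h3.1
        have hrr : r ≠ r0 := by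
          rintro rfl
          exact chl_r0 h4.2
        have h5 : t (par r) ≤ t r := t_mono _ _ hrr (desc_par r)
        have h6 : t r = idx r := t_leaf r h4.2
        have h7 := rk_lt c h2.2
        have h8 := (hlast x hx).2 c h2.1
        have h9 : (t (par r) + 1) * K ≤ t (last x) * K := Nat.mul_le_mul_right K (by omega)
        have h10 := hK (par r)
        simp only [μ]
        rw [Nat.add_mul, Nat.one_mul] at h9
        omega }
  refine ⟨Q, ?_⟩
  intro x hx
  have hx' := (mem_M x).mp hx
  have h1 := degM x hx'.2.1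
  have h2 : 1 ≤ (chl x).card := by
    rw [Nat.one_le_iff_ne_zero, ← Nat.pos_iff_ne_zero, Finset.card_pos]
    exact Finset.nonempty_iff_ne_empty.mpr hx'.2.2
  omega

end Pool.Agent.Lib.MP_7c15de_co
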