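import Mathlib
import Pool.Agent.Lib.MP_7c15de_co.Tree

set_option autoImplicit false

namespace Pool.Agent.Lib.MP_7c15de_co

open Finset

/-- A 2-dense number has a divisor in `[d, 2 d - 2]` for every `2 ≤ d ≤ k`. -/
theorem TwoDense.exists_dvd {k : ℕ} (h : TwoDense k) {d : ℕ} (hd : 2 ≤ d) (hdk : d ≤ k) :
    ∃ N, N ∣ k ∧ d ≤ N ∧ N + 2 ≤ 2 * d := by
  classical
  have hne : (k.divisors.filter (fun e => e < d)).Nonempty := by
    refine ⟨1, ?_⟩
    rw [Finset.mem_filter, Nat.mem_divisors]
    exact ⟨⟨one_dvd _, by have := h.1; omega⟩, by omega⟩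
  obtain ⟨e, he, hmax⟩ := Finset.exists_max_image _ (fun e => e) hne
  rw [Finset.mem_filter, Nat.mem_divisors] at he
  obtain ⟨e', h1, h2, h3⟩ := h.2 e he.1.1 (by omega)
  refine ⟨e', h1, ?_, by omega⟩
  by_contra hcon
  have := hmax e' (by
    rw [Finset.mem_filter, Nat.mem_divisors]
    exact ⟨⟨h1, by have := h.1; omega⟩, by omega⟩)
  omega

/-- `2 ^ a * c` is 2-dense if `1 ≤ c ≤ 2 ^ (a + 1)`. -/
theorem twoDense_pow_mul (a c : ℕ) (hc : 1 ≤ c) (hc2 : c ≤ 2 ^ (a + 1)) :
    TwoDense (2 ^ a * c) := by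
  refine ⟨by positivity, ?_⟩
  intro d hd hdk
  have hd0 : 0 < d := Nat.pos_of_dvd_of_pos hd (by positivity)
  by_cases h1 : d < 2 ^ a
  · refine ⟨2 ^ (Nat.log 2 d + 1), ?_, Nat.lt_pow_succ_log_self (by norm_num) d, ?_⟩
    · refine (pow_dvd_pow 2 ?_).mul_right c
      have h2 : 2 ^ Nat.log 2 d ≤ d := Nat.pow_log_le_self 2 (by omega)
      have h3 : 2 ^ Nat.log 2 d < 2 ^ a := lt_of_le_of_lt h2 h1
      have := (Nat.pow_lt_pow_iff_right (by norm_num : 1 < 2)).mp h3
      omega
    · have h2 : 2 ^ Nat.log 2 d ≤ d := Nat.pow_log_le_self 2 (by omega)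
      rw [pow_succ]
      omega
  · push Not at h1
    by_cases h2 : d < c
    · refine ⟨c, Dvd.intro_left _ rfl, h2, ?_⟩
      rw [pow_succ] at hc2
      omega
    · push Not at h2
      -- the largest i with c * 2 ^ i ≤ d
      have hex : ∃ i, c * 2 ^ i ≤ d ∧ d < c * 2 ^ (i + 1) := by
        have h3 : ∃ j, d < c * 2 ^ j := ⟨d, by
          have : d < 2 ^ d := Nat.lt_two_pow_self
          nlinarith⟩
        classical
        obtain hj := Nat.find_spec h3
        have hmin : ∀ j', j' < Nat.find h3 → ¬ d < c * 2 ^ j' := fun j' hj' => Nat.find_min h3 hj'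
        have hpos : Nat.find h3 ≠ 0 := by
          intro h0
          rw [h0] at hj
          simp at hj
          omega
        obtain ⟨i, hi⟩ := Nat.exists_eq_succ_of_ne_zero hpos
        refine ⟨i, ?_, ?_⟩
        · have := hmin i (by omega)
          omega
        · rw [hi] at hj
          exact hj
      obtain ⟨i, h3, h4⟩ := hex
      refine ⟨c * 2 ^ (i + 1), ?_, h4, ?_⟩
      · have h5 : i < a := by
          have h6 : c * 2 ^ i < c * 2 ^ a := by
            calc c * 2 ^ i ≤ d := h3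
              _ < 2 ^ a * c := hdk
              _ = c * 2 ^ a := Nat.mul_comm _ _
          have h7 := Nat.lt_of_mul_lt_mul_left h6
          exact (Nat.pow_lt_pow_iff_right (by norm_num : 1 < 2)).mp h7
        rw [Nat.mul_comm (2 ^ a) c]
        exact Nat.mul_dvd_mul_left c (pow_dvd_pow 2 (by omega))
      · rw [pow_succ, ← Nat.mul_assoc]
        omega

/-- **Main theorem.** Every tree with `m` edges decomposes `K_{m,k}` for every 2-dense `k ≥ m`. -/
theorem tree_decomposes {V : Type} [Fintype V] (T : SimpleGraph V) (hT : T.IsTree) (m k : ℕ)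
    (hm : Fintype.card V = m + 1) (hk : TwoDense k) (hmk : m ≤ k) :
    Decomposes T (completeBipartiteGraph (Fin m) (Fin k)) := by
  classical
  rcases Nat.eq_zero_or_pos m with hm0 | hm0
  · subst hm0
    refine ⟨Empty, fun i => i.elim, fun i => i.elim, ?_⟩
    intro e he
    induction e using Sym2.ind with
    | _ p q =>
      rw [SimpleGraph.mem_edgeSet] at he
      rcases p with l | w
      · exact l.elim0
      · rcases q with l | w'
        · exact l.elim0
        · simp [completeBipartiteGraph] at he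
  -- a bipartition with the larger class X
  obtain ⟨X, hbip, hXY⟩ : ∃ X : Finset V, (∀ a b, T.Adj a b → (a ∈ X ↔ b ∉ X)) ∧
      Xᶜ.card ≤ X.card := by
    let col := hT.coloringTwo
    let X0 : Finset V := Finset.univ.filter (fun v => col v = 0)
    have h0 : ∀ a b, T.Adj a b → (a ∈ X0 ↔ b ∉ X0) := by
      intro a b hab
      have h1 : col a ≠ col b := col.valid hab
      simp only [X0, Finset.mem_filter, Finset.mem_univ, true_and]
      generalize col a = p at *
      generalize col b = q at *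
      fin_cases p <;> fin_cases q <;> simp_all
    by_cases h : X0ᶜ.card ≤ X0.card
    · exact ⟨X0, h0, h⟩
    · refine ⟨X0ᶜ, ?_, ?_⟩
      · intro a b hab
        have := h0 a b hab
        simp only [Finset.mem_compl]
        tauto
      · rw [compl_compl]
        omega
  have hdeg : ∀ x, T.degree x ≤ k := by
    intro x
    have := T.degree_lt_card_verts x
    omega
  have hNex : ∀ x, ∃ N, 2 ≤ T.degree x → N ∣ k ∧ T.degree x ≤ N ∧ N + 2 ≤ 2 * T.degree x := by
    intro x
    by_cases h : 2 ≤ T.degree x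
    · obtain ⟨N, h1⟩ := hk.exists_dvd h (hdeg x)
      exact ⟨N, fun _ => h1⟩
    · exact ⟨0, fun h' => absurd h' h⟩
  choose N hN using hNex
  obtain ⟨Q, hQ⟩ := plan_exists T hT X hbip hXY (by omega) N (fun x _ h => (hN x h).2)
  exact Q.decomposes hT hbip m k hm hmk (fun x hx => (hN x (hQ x hx)).1)

/-- Every 2-dense number `k ≥ 2 n - 1` lies in `S(n)`. -/
theorem twoDense_mem_S (n k : ℕ) (hn : 1 ≤ n) (hk : TwoDense k) (hnk : 2 * n - 1 ≤ k) :
    k ∈ S n := by
  classical
  refine ⟨hk.1, ?_⟩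
  intro V _ T hT
  obtain ⟨hT1, c, _, hc1, hc2⟩ := hT
  apply tree_decomposes T hT1 _ _ _ hk hnk
  have h1 : Fintype.card {v // c v = true} + Fintype.card {v // c v = false} = Fintype.card V := by
    have h2 := Fintype.card_subtype_compl (fun v => c v = true)
    have h3 : Fintype.card {v // ¬ c v = true} = Fintype.card {v // c v = false} := by
      apply Fintype.card_congr
      apply Equiv.subtypeEquivRight
      intro v
      simp
    have h4 := Fintype.card_subtype_le (fun v => c v = true)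
    omega
  omega

/-- A 2-dense number just above `2 n`. -/
theorem exists_twoDense (n : ℕ) (hn : 1 ≤ n) :
    ∃ k, TwoDense k ∧ 2 * n ≤ k ∧ k + 1 ≤ 2 * n + Nat.sqrt (4 * n - 1) := by
  classical
  have hex : ∃ a, n ≤ 4 ^ a := ⟨n, (Nat.lt_pow_self (by norm_num)).le⟩
  let a := Nat.find hex
  have ha : n ≤ 4 ^ a := Nat.find_spec hex
  have ha2 : 2 ^ a ≤ Nat.sqrt (4 * n - 1) := by
    rw [Nat.le_sqrt]
    have e : 2 ^ a * 2 ^ a = 4 ^ a := by
      rw [← mul_pow]
      norm_num
    rw [e]
    rcases Nat.eq_zero_or_pos a with h0 | h0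
    · rw [h0]
      simp
      omega
    · obtain ⟨b, hb⟩ : ∃ b, a = b + 1 := ⟨a - 1, by omega⟩
      have h1 : ¬ n ≤ 4 ^ b := Nat.find_min hex (by omega)
      rw [hb, pow_succ]
      omega
  have h2a : 0 < 2 ^ a := by positivity
  refine ⟨2 ^ a * ((2 * n + 2 ^ a - 1) / 2 ^ a), ?_, ?_, ?_⟩
  · apply twoDense_pow_mul
    · rw [Nat.le_div_iff_mul_le h2a]
      omega
    · apply Nat.le_of_lt_succ
      apply Nat.div_lt_of_lt_mul
      have e : 2 ^ a * (2 ^ (a + 1)).succ = 2 * 4 ^ a + 2 ^ a := by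
        have : (4 : ℕ) ^ a = 2 ^ a * 2 ^ a := by
          rw [← mul_pow]
          norm_num
        rw [this, Nat.succ_eq_add_one, pow_succ]
        ring
      rw [e]
      omega
  · have h1 := Nat.div_add_mod (2 * n + 2 ^ a - 1) (2 ^ a)
    have h3 := Nat.mod_lt (2 * n + 2 ^ a - 1) h2a
    omega
  · have h1 := Nat.mul_div_le (2 * n + 2 ^ a - 1) (2 ^ a)
    omega

end Pool.Agent.Lib.MP_7c15de_co
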